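import Pool.Agent.Lib.MP_fce888_co.S.Geo.Fin
import Pool.Agent.Lib.MP_fce888_co.S.GeoOut

set_option autoImplicit false

/-!
# MP_fce888_co, sections S-d and S-e: the statement `GeoStm` of `S/GeoOut.lean`
-/

namespace Pool.Agent.Lib.MP_fce888_co.S

open Finset Pool.Agent.Lib.MP_fce888_co
open scoped Classical

theorem geoStm : GeoStm := by
  intro c _ N b
  obtain ⟨n1, h⟩ := Geo.geo_all c N b
  refine ⟨n1, ?_⟩
  intro V _ G GP QQ m0 hn hG hcub hB
  have g := h V G GP QQ m0 hn hG hcub hB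
  exact ⟨g.prob, g.symm, g.mem, g.e_mem, g.e_notMem, g.e_far, g.near_mem, g.sub_theta,
    g.theta_edges, g.theta_card, g.theta_acy, g.theta_nt⟩

end Pool.Agent.Lib.MP_fce888_co.S
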