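import Pool.Agent.Lib.MP_fce888_co.S.AbcPath
import Pool.Agent.Lib.MP_fce888_co.C48.P_cyc

set_option autoImplicit false
set_option linter.unusedSectionVars false

/-!
# MP_fce888_co, sections S-d and S-e: function-based paths

A long path is a function `x : ℕ → V`, used on `[0, L]`.
-/

namespace Pool.Agent.Lib.MP_fce888_co.S.Geo

open Finset Pool.Agent.Lib.MP_fce888_co Pool.Agent.Lib.MP_fce888_co.S
open scoped Classical

/-- walk version of `UP` -/
def UW {V : Type} (G : SimpleGraph V) (R : ℕ) (v : V) : Prop :=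
  ∀ (w : V) (p q : G.Walk v w), p.IsPath → q.IsPath → p.length ≤ R → q.length ≤ R → p = q

/-- `x` restricted to `[0, L]` is a path -/
structure PF {V : Type} (G : SimpleGraph V) (L : ℕ) (x : ℕ → V) : Prop where
  inj : ∀ s t, s ≤ L → t ≤ L → x s = x t → s = t
  adj : ∀ t, t < L → G.Adj (x t) (x (t + 1))

/-- the edges `x t, x (t+1)` with `s ≤ t < T` -/
noncomputable def ed {V : Type} (s T : ℕ) (x : ℕ → V) : Finset (Sym2 V) :=
  (Ico s T).image fun t => s(x t, x (t + 1))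

theorem mem_ed {V : Type} {s T : ℕ} {x : ℕ → V} {e : Sym2 V} :
    e ∈ ed s T x ↔ ∃ t, s ≤ t ∧ t < T ∧ e = s(x t, x (t + 1)) := by
  unfold ed
  simp only [mem_image, mem_Ico]
  constructor
  · rintro ⟨t, ⟨h1, h2⟩, rfl⟩
    exact ⟨t, h1, h2, rfl⟩
  · rintro ⟨t, h1, h2, rfl⟩
    exact ⟨t, ⟨h1, h2⟩, rfl⟩

/-- numerical conditions on `L, R = R0, R1, R2, rn, r = rr` -/
structure Num (L R R1 R2 rn r : ℕ) : Prop where
  a : 2 * r + 1 ≤ rn
  b : 2 * R1 ≤ R
  c : 4 * R2 ≤ R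
  d : 2 * R2 + rn < R
  e : 1 ≤ R2
  f : 2 * R + 4 ≤ L

/-- a family of good paths with common ends, separated in the middle (one-sided `sep`; the other side by
symmetry) -/
structure Fam {V : Type} (G : SimpleGraph V) (L R R1 R2 rn : ℕ) {ι : Type} (x : ι → ℕ → V) : Prop where
  pf : ∀ i, PF G L (x i)
  up : ∀ i t, t ≤ L → UW G R (x i t)
  self : ∀ i s t, s + R1 < t → t ≤ L → rn < G.dist (x i s) (x i t)
  ini : ∀ i j, x i 0 = x j 0
  fin : ∀ i j, x i L = x j L
  far : ∀ i j, R ≤ G.dist (x i 0) (x j L)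
  sep : ∀ i j, i ≠ j → ∀ s t, s ≤ L → t ≤ L → R2 ≤ s → s + R2 ≤ L → rn < G.dist (x i s) (x j t)

/-- the closed sequence which runs along `x` from `s0` to `L - s1` and back along `y` -/
def cir {V : Type} (L s0 s1 : ℕ) (x y : ℕ → V) (k : ℕ) : V :=
  if k ≤ L - s0 - s1 then x (s0 + k) else y (s0 + 2 * (L - s0 - s1) - k)

/-- the periodic function with values `c 0, ..., c (m-1)` -/
def per {V : Type} (m : ℕ) (c : ℕ → V) (z : ℤ) : V := c (z % (m : ℤ)).toNat

end Pool.Agent.Lib.MP_fce888_co.S.Geo
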