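import Pool.Agent.Lib.MP_fce888_co.S.Geo.Stm

set_option autoImplicit false

namespace Pool.Agent.Lib.MP_fce888_co.S.Geo

open Finset Pool.Agent.Lib.MP_fce888_co Pool.Agent.Lib.MP_fce888_co.S
open scoped Classical

private lemma p_acy_vs {V : Type} [Fintype V] {a b : ℕ} {x : ℕ → V} {v : V}
    (hv : v ∈ vs (ed a b x)) : ∃ t, a ≤ t ∧ t ≤ b ∧ v = x t := by
  unfold vs at hv
  obtain ⟨_, e, he, hve⟩ := mem_filter.1 hv
  obtain ⟨t, h1, h2, rfl⟩ := mem_ed.1 he
  rcases Sym2.mem_iff.1 hve with h | h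
  · exact ⟨t, h1, h2.le, h⟩
  · exact ⟨t + 1, by omega, h2, h⟩

private lemma p_acy_vsu {V : Type} [Fintype V] {A B : Finset (Sym2 V)} {v : V}
    (hv : v ∈ vs (A ∪ B)) : v ∈ vs A ∨ v ∈ vs B := by
  unfold vs at hv ⊢
  obtain ⟨_, e, he, hve⟩ := mem_filter.1 hv
  rcases mem_union.1 he with h | h
  · exact Or.inl (mem_filter.2 ⟨mem_univ _, e, h, hve⟩)
  · exact Or.inr (mem_filter.2 ⟨mem_univ _, e, h, hve⟩)

private lemma p_acy_empty {V : Type} [Fintype V] (G : SimpleGraph V) : Acy G ∅ := by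
  intro D hD hc
  obtain ⟨m, γ, hc⟩ := hc
  have h := C48.p_cyc V G D m γ hc
  have h1 := h.1 0
  exact absurd (hD h1) (Finset.notMem_empty _)

private lemma p_acy_two {V : Type} [Fintype V] (h_attp : D_attp) {G : SimpleGraph V}
    {U : Finset (Sym2 V)} {X : ℕ → V} {L h s0 s1 : ℕ} (hU : Acy G U) (hX : PF G L X)
    (hs0 : s0 ≤ h) (hs1 : s1 + h + 1 ≤ L)
    (he0 : ∀ t, t < s0 → s(X t, X (t + 1)) ∈ U)
    (he1 : ∀ t, t < s1 → s(X (L - t), X (L - (t + 1))) ∈ U)
    (hv : ∀ t, s0 < t → t + s1 < L → X t ∉ vs U) :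
    Acy G (U ∪ ed 0 h X ∪ ed 0 (L - h - 1) (fun t => X (L - t))) := by
  have h1 : Acy G (U ∪ ed 0 h X) := by
    apply h_attp V G U X s0 h hU
    · exact ⟨fun s t hs ht => hX.inj s t (by omega) (by omega), fun t ht => hX.adj t (by omega)⟩
    · exact fun t ht _ => he0 t ht
    · exact fun t ht ht2 => hv t ht (by omega)
  apply h_attp V G (U ∪ ed 0 h X) (fun t => X (L - t)) s1 (L - h - 1) h1
  · refine ⟨?_, ?_⟩
    · intro s t hs ht hst
      have := hX.inj (L - s) (L - t) (by omega) (by omega) hst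
      omega
    · intro t ht
      have h3 := (hX.adj (L - (t + 1)) (by omega)).symm
      have e1 : L - (t + 1) + 1 = L - t := by omega
      rw [e1] at h3
      exact h3
  · intro t ht _
    exact mem_union_left _ (he1 t ht)
  · intro t ht ht2 hm
    rcases p_acy_vsu hm with h3 | h3
    · exact hv (L - t) (by omega) (by omega) h3
    · obtain ⟨u, _, hu, hxu⟩ := p_acy_vs h3
      have := hX.inj (L - t) u (by omega) (by omega) hxu
      omega

private lemma p_acy_cover {V : Type} {X : ℕ → V} {L h : ℕ} (hh : h + 1 ≤ L) {e : Sym2 V}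
    (he : e ∈ ed 0 L X) (hne : e ≠ s(X h, X (h + 1))) :
    e ∈ ed 0 h X ∨ e ∈ ed 0 (L - h - 1) (fun t => X (L - t)) := by
  obtain ⟨t, _, ht, rfl⟩ := mem_ed.1 he
  rcases lt_trichotomy t h with h1 | h1 | h1
  · exact Or.inl (mem_ed.2 ⟨t, Nat.zero_le _, h1, rfl⟩)
  · exact absurd (by rw [h1]) hne
  · right
    rw [mem_ed]
    refine ⟨L - 1 - t, Nat.zero_le _, by omega, ?_⟩
    have e1 : L - (L - 1 - t) = t + 1 := by omega
    have e2 : L - (L - 1 - t + 1) = t := by omega
    show s(X t, X (t + 1)) = s(X (L - (L - 1 - t)), X (L - (L - 1 - t + 1)))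
    rw [e1, e2, Sym2.eq_swap]

theorem p_acy (h_pair : D_pair) (h_attp : D_attp) : D_acy := by
  intro V _ G L R R1 R2 rn r h ι x hG hN hF hh hhL i j k hij hik hjk
  obtain ⟨a0, a1, ha0, ha1, ha⟩ := h_pair V G L R R1 R2 rn r ι x hG hN hF i j hij
  obtain ⟨b0, b1, hb0, hb1, hb⟩ := h_pair V G L R R1 R2 rn r ι x hG hN hF k j hjk.symm
  obtain ⟨c0, c1, hc0, hc1, hc⟩ := h_pair V G L R R1 R2 rn r ι x hG hN hF k i hik.symm
  have hX := hF.pf i
  have hY := hF.pf j
  have hZ := hF.pf k
  -- the path x j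
  have h1 : Acy G (ed 0 L (x j)) := by
    have h2 := h_attp V G ∅ (x j) 0 L (p_acy_empty G) hY (fun t ht => absurd ht (Nat.not_lt_zero _))
      (by
        intro t _ _ hm
        unfold vs at hm
        obtain ⟨_, e, he, _⟩ := mem_filter.1 hm
        exact absurd he (Finset.notMem_empty _))
    rwa [empty_union] at h2
  -- x i
  have h3 : Acy G (ed 0 L (x j) ∪ ed 0 h (x i) ∪ ed 0 (L - h - 1) (fun t => x i (L - t))) := by
    apply p_acy_two h_attp (s0 := a0) (s1 := a1) h1 hX (by omega) (by omega)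
    · intro t ht
      rw [(ha t t (by omega) (by omega)).2 ⟨rfl, by omega⟩,
        (ha (t + 1) (t + 1) (by omega) (by omega)).2 ⟨rfl, by omega⟩]
      exact mem_ed.2 ⟨t, Nat.zero_le _, by omega, rfl⟩
    · intro t ht
      rw [(ha (L - t) (L - t) (by omega) (by omega)).2 ⟨rfl, by omega⟩,
        (ha (L - (t + 1)) (L - (t + 1)) (by omega) (by omega)).2 ⟨rfl, by omega⟩]
      refine mem_ed.2 ⟨L - (t + 1), Nat.zero_le _, by omega, ?_⟩
      have e1 : L - (t + 1) + 1 = L - t := by omega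
      rw [e1, Sym2.eq_swap]
    · intro t ht1 ht2 hm
      obtain ⟨u, _, hu, hxu⟩ := p_acy_vs hm
      have := (ha t u (by omega) (by omega)).1 hxu
      omega
  -- x k
  have h4 : Acy G (ed 0 L (x j) ∪ ed 0 h (x i) ∪ ed 0 (L - h - 1) (fun t => x i (L - t)) ∪
      ed 0 h (x k) ∪ ed 0 (L - h - 1) (fun t => x k (L - t))) := by
    apply p_acy_two h_attp (s0 := max b0 c0) (s1 := max b1 c1) h3 hZ (by omega) (by omega)
    · intro t ht
      by_cases hb' : t < b0
      · rw [(hb t t (by omega) (by omega)).2 ⟨rfl, by omega⟩,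
          (hb (t + 1) (t + 1) (by omega) (by omega)).2 ⟨rfl, by omega⟩]
        exact mem_union_left _ (mem_union_left _ (mem_ed.2 ⟨t, Nat.zero_le _, by omega, rfl⟩))
      · rw [(hc t t (by omega) (by omega)).2 ⟨rfl, by omega⟩,
          (hc (t + 1) (t + 1) (by omega) (by omega)).2 ⟨rfl, by omega⟩]
        exact mem_union_left _ (mem_union_right _ (mem_ed.2 ⟨t, Nat.zero_le _, by omega, rfl⟩))
    · intro t ht
      by_cases hb' : t < b1
      · rw [(hb (L - t) (L - t) (by omega) (by omega)).2 ⟨rfl, by omega⟩,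
          (hb (L - (t + 1)) (L - (t + 1)) (by omega) (by omega)).2 ⟨rfl, by omega⟩]
        refine mem_union_left _ (mem_union_left _ (mem_ed.2 ⟨L - (t + 1), Nat.zero_le _, by omega, ?_⟩))
        have e1 : L - (t + 1) + 1 = L - t := by omega
        rw [e1, Sym2.eq_swap]
      · rw [(hc (L - t) (L - t) (by omega) (by omega)).2 ⟨rfl, by omega⟩,
          (hc (L - (t + 1)) (L - (t + 1)) (by omega) (by omega)).2 ⟨rfl, by omega⟩]
        exact mem_union_right _ (mem_ed.2 ⟨t, Nat.zero_le _, by omega, rfl⟩)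
    · intro t ht1 ht2 hm
      rcases p_acy_vsu hm with hm | hm
      · rcases p_acy_vsu hm with hm | hm
        · obtain ⟨u, _, hu, hxu⟩ := p_acy_vs hm
          have := (hb t u (by omega) (by omega)).1 hxu
          omega
        · obtain ⟨u, _, hu, hxu⟩ := p_acy_vs hm
          have := (hc t u (by omega) (by omega)).1 hxu
          omega
      · obtain ⟨u, _, hu, hxu⟩ := p_acy_vs hm
        have := (hc t (L - u) (by omega) (by omega)).1 hxu
        omega
  intro D hD hcD
  apply h4 D _ hcD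
  intro e he
  have he' := hD he
  rw [mem_sdiff, mem_insert, mem_singleton, not_or] at he'
  obtain ⟨he1, hne1, hne2⟩ := he'
  rcases mem_union.1 he1 with he2 | he2
  · rcases mem_union.1 he2 with he3 | he3
    · rcases p_acy_cover (by omega) he3 hne1 with h5 | h5
      · exact mem_union_left _ (mem_union_left _ (mem_union_left _ (mem_union_right _ h5)))
      · exact mem_union_left _ (mem_union_left _ (mem_union_right _ h5))
    · exact mem_union_left _ (mem_union_left _ (mem_union_left _ (mem_union_left _ he3)))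
  · rcases p_acy_cover (by omega) he2 hne2 with h5 | h5
    · exact mem_union_left _ (mem_union_right _ h5)
    · exact mem_union_right _ h5

end Pool.Agent.Lib.MP_fce888_co.S.Geo
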