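import Pool.Agent.Lib.MP_fce888_co.S.Geo.Stm

set_option autoImplicit false

/-!
# MP_fce888_co, [Sd arc]: short arcs of a circuit are geodesics (helper19)
-/

namespace Pool.Agent.Lib.MP_fce888_co.S.Geo

open Finset Pool.Agent.Lib.MP_fce888_co Pool.Agent.Lib.MP_fce888_co.S
open scoped Classical

/-- a path function of length `k ≤ L`, `k ≤ R` starting at a good vertex is a geodesic -/
private theorem p_arc_one (h_seg : D_seg) {V : Type} (G : SimpleGraph V) (R L : ℕ) (x : ℕ → V)
    (hc : G.Connected) (hx : PF G L x) (hu : UW G R (x 0)) (k : ℕ) (hk : k ≤ R) (hL : k ≤ L) :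
    G.dist (x 0) (x k) = k := by
  obtain ⟨p, hp, hl, -, -⟩ := h_seg V G L x hx 0 k (Nat.zero_le k) hL
  obtain ⟨q, hq⟩ := hc.exists_walk_length_eq_dist (x 0) (x k)
  have hqp : q.IsPath := q.isPath_of_length_eq_dist hq
  have hle : G.dist (x 0) (x k) ≤ p.length := SimpleGraph.dist_le p
  have hpl : p.length = k := by omega
  have he : p = q := hu (x k) p q hp hqp (by omega) (by omega)
  rw [← hq, ← he, hpl]

theorem p_arc (h_seg : D_seg) : D_arc := by
  intro V _ G R D m γ hc hcyc i k hu hk hkm
  obtain ⟨h3, hinj, hadj, -⟩ := hcyc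
  have hsmall : ∀ s t : ℕ, s ≤ m - 1 → t ≤ m - 1 → (m : ℤ) ∣ (s : ℤ) - t → s = t := by
    intro s t hs ht hd
    have habs : |(s : ℤ) - t| < m := by
      rw [abs_lt]
      constructor <;> omega
    have := Int.eq_zero_of_abs_lt_dvd hd habs
    omega
  constructor
  · have hx : PF G (m - 1) (fun t : ℕ => γ (i + t)) := by
      refine ⟨?_, ?_⟩
      · intro s t hs ht h
        refine hsmall s t hs ht ?_
        have h1 := (hinj _ _).1 h
        have h2 : (i + (s : ℤ)) - (i + t) = (s : ℤ) - t := by ring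
        rwa [h2] at h1
      · intro t _
        have h1 := hadj (i + t)
        have h2 : i + (t : ℤ) + 1 = i + ((t + 1 : ℕ) : ℤ) := by push_cast; ring
        rw [h2] at h1
        exact h1
    have h0 : γ (i + ((0 : ℕ) : ℤ)) = γ i := by simp
    have := p_arc_one h_seg G R (m - 1) _ hc hx (by rw [h0]; exact hu) k hk (by omega)
    rw [h0] at this
    exact this
  · have hx : PF G (m - 1) (fun t : ℕ => γ (i - t)) := by
      refine ⟨?_, ?_⟩
      · intro s t hs ht h
        refine (hsmall t s ht hs ?_).symm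
        have h1 := (hinj _ _).1 h
        have h2 : (i - (s : ℤ)) - (i - t) = (t : ℤ) - s := by ring
        rwa [h2] at h1
      · intro t _
        have h1 := (hadj (i - ((t + 1 : ℕ) : ℤ))).symm
        have h2 : i - ((t + 1 : ℕ) : ℤ) + 1 = i - (t : ℤ) := by push_cast; ring
        rw [h2] at h1
        exact h1
    have h0 : γ (i - ((0 : ℕ) : ℤ)) = γ i := by simp
    have := p_arc_one h_seg G R (m - 1) _ hc hx (by rw [h0]; exact hu) k hk (by omega)
    rw [h0] at this
    exact this

end Pool.Agent.Lib.MP_fce888_co.S.Geo
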