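import Pool.Agent.Lib.MP_fce888_co.S.Geo.Stm

set_option autoImplicit false

namespace Pool.Agent.Lib.MP_fce888_co.S.Geo

open Finset Pool.Agent.Lib.MP_fce888_co Pool.Agent.Lib.MP_fce888_co.S
open scoped Classical

theorem p_attp (h_deg : C48.S_deg) : D_attp := by
  intro V _ G U y s T hU hy hold hnew Z hZ hcirc
  set S : Finset ℕ := (range T).filter (fun t => s ≤ t ∧ s(y t, y (t + 1)) ∈ Z) with hS
  by_cases hne : S.Nonempty
  · have hmax := Finset.max'_mem S hne
    have hle := Finset.le_max' S
    set t : ℕ := S.max' hne with ht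
    rw [hS, Finset.mem_filter, Finset.mem_range] at hmax
    obtain ⟨htT, hst, htZ⟩ := hmax
    have hv : y (t + 1) ∉ vs U := hnew (t + 1) (by omega) (by omega)
    obtain ⟨e', he'Z, he'ne, hve'⟩ := h_deg V G Z hcirc _ htZ (y (t + 1)) (Sym2.mem_mk_right _ _)
    have he'U : e' ∉ U := by
      intro h
      apply hv
      unfold vs
      exact Finset.mem_filter.2 ⟨Finset.mem_univ _, e', h, hve'⟩
    have he'y : e' ∈ ed 0 T y := by
      rcases Finset.mem_union.1 (hZ he'Z) with h | h
      · exact absurd h he'U
      · exact h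
    obtain ⟨t', -, ht'T, rfl⟩ := mem_ed.1 he'y
    rcases Sym2.mem_iff.1 hve' with h | h
    · have h1 : t + 1 = t' := hy.inj _ _ (by omega) (by omega) h
      have h2 : t' ∈ S := by
        rw [hS, Finset.mem_filter, Finset.mem_range]
        exact ⟨ht'T, by omega, he'Z⟩
      have h3 := hle t' h2
      omega
    · have h1 : t + 1 = t' + 1 := hy.inj _ _ (by omega) (by omega) h
      have h2 : t' = t := by omega
      exact he'ne (by rw [h2])
  · refine hU Z ?_ hcirc
    intro e he
    rcases Finset.mem_union.1 (hZ he) with h | h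
    · exact h
    · obtain ⟨t, -, htT, rfl⟩ := mem_ed.1 h
      by_cases hts : t < s
      · exact hold t hts htT
      · exfalso
        apply hne
        refine ⟨t, ?_⟩
        rw [hS, Finset.mem_filter, Finset.mem_range]
        exact ⟨htT, by omega, he⟩

end Pool.Agent.Lib.MP_fce888_co.S.Geo
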