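import Pool.Agent.Lib.MP_fce888_co.S.Geo.Stm

set_option autoImplicit false

/-!
# MP_fce888_co, section S-d: piece `bad`
-/

namespace Pool.Agent.Lib.MP_fce888_co.S.Geo

open Finset Pool.Agent.Lib.MP_fce888_co Pool.Agent.Lib.MP_fce888_co.S
open scoped Classical

/-- the event of `D_flat` -/
private def NA {V : Type} [Fintype V] (G : SimpleGraph V) (Q Q' : List V) : Prop :=
  ∃ (t1 t2 : ℕ) (u v : V), Q[t1]? = some u ∧ Q'[t2]? = some v ∧
      R2 (Fintype.card V) ≤ t2 ∧ t2 + R2 (Fintype.card V) ≤ LL (Fintype.card V) ∧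
      G.dist u v ≤ rn (Fintype.card V)

private theorem na_of_not_sep {V : Type} [Fintype V] (G : SimpleGraph V) (Q Q' : List V)
    (h : ¬ Sep G Q Q') : NA G Q Q' ∨ NA G Q' Q := by
  unfold Sep at h
  push Not at h
  obtain ⟨t1, t2, u, v, h1, h2, h3, h4⟩ := h
  rcases h3 with h3 | h3
  · right
    exact ⟨t2, t1, v, u, h2, h1, h3.1, h3.2, by rw [G.dist_comm]; exact h4⟩
  · left
    exact ⟨t1, t2, u, v, h1, h2, h3.1, h3.2, h4⟩

theorem p_bad (h_cou : D_cou) (h_flat : D_flat) : D_bad := by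
  intro V _ G c L4 GP QQ m0 N hconn hcub hB hL4 hV
  set n := Fintype.card V with hn
  set ε : ℝ := ((LL n + 1 : ℕ) : ℝ) ^ 2 * 2 ^ (rn n + 2) * (L4 * 3 * (1 / 2) ^ R2 n) with hε
  have hε0 : 0 ≤ ε := by positivity
  -- the fibres
  have hcα : ∀ p : {p // p ∈ GP}, Fintype.card {Q // Q ∈ QQ p.1} = m0 := by
    intro p
    rw [Fintype.card_coe]
    exact hB.card p.1 p.2
  have hfib : ∀ (p : {p // p ∈ GP}) (i j : Fin N), i ≠ j →
      (((univ : Finset (Fin N → {Q // Q ∈ QQ p.1})).filter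
        fun f => NA G (f i).1 (f j).1).card : ℝ) ≤ ε * (m0 : ℝ) ^ N := by
    intro p i j hij
    have h1 := h_cou {Q // Q ∈ QQ p.1} N (fun a b => NA G a.1 b.1) ε hε0 (by
      intro a
      rw [hcα p]
      have h2 := h_flat V G c L4 GP QQ m0 hconn hcub hB hL4 hV p.1 p.2 a.1 a.2
      rw [← hn] at h2
      have h3 : ((univ : Finset {Q // Q ∈ QQ p.1}).filter fun b => NA G a.1 b.1).card ≤
          ((QQ p.1).filter fun Q' => NA G a.1 Q').card := by
        refine card_le_card_of_injOn (fun b => b.1) ?_ ?_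
        · intro b hb
          rw [mem_coe, mem_filter] at hb
          rw [mem_coe, mem_filter]
          exact ⟨b.2, hb.2⟩
        · intro b _ b' _ hbb
          exact Subtype.ext hbb
      have h4 : (((univ : Finset {Q // Q ∈ QQ p.1}).filter fun b => NA G a.1 b.1).card : ℝ) ≤
          (((QQ p.1).filter fun Q' => NA G a.1 Q').card : ℝ) := by exact_mod_cast h3
      exact h4.trans h2) i j hij
    rw [hcα p] at h1
    exact h1
  have hOm : (Fintype.card (Om GP QQ N) : ℝ) = ∑ p : {p // p ∈ GP}, (m0 : ℝ) ^ N := by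
    have h1 : Fintype.card (Om GP QQ N) = ∑ p : {p // p ∈ GP}, m0 ^ N := by
      show Fintype.card (Σ p : {p // p ∈ GP}, (Fin N → {Q // Q ∈ QQ p.1})) = _
      rw [Fintype.card_sigma]
      refine sum_congr rfl fun p _ => ?_
      rw [Fintype.card_fun, Fintype.card_fin, hcα p]
    rw [h1]
    push_cast
    rfl
  have hpair : ∀ i j : Fin N, i ≠ j →
      (((univ : Finset (Om GP QQ N)).filter fun ω => NA G (pth ω i) (pth ω j)).card : ℝ) ≤
        ε * Fintype.card (Om GP QQ N) := by
    intro i j hij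
    have h1 : ((univ : Finset (Om GP QQ N)).filter fun ω => NA G (pth ω i) (pth ω j)) =
        (univ : Finset {p // p ∈ GP}).sigma fun p =>
          (univ : Finset (Fin N → {Q // Q ∈ QQ p.1})).filter fun f => NA G (f i).1 (f j).1 := by
      ext ω
      rw [mem_filter, mem_sigma, mem_filter]
      simp only [mem_univ, true_and]
      rfl
    rw [h1, card_sigma, hOm, mul_sum]
    push_cast
    exact sum_le_sum fun p _ => hfib p i j hij
  -- the complement
  have hcompl : (Fintype.card (Om GP QQ N) : ℝ) - ((Om0 G GP QQ N).card : ℝ) =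
      (((univ : Finset (Om GP QQ N)) \ Om0 G GP QQ N).card : ℝ) := by
    rw [cast_card_sdiff (subset_univ _), card_univ]
  rw [hcompl]
  have hsub : (univ : Finset (Om GP QQ N)) \ Om0 G GP QQ N ⊆
      ((univ : Finset (Fin N × Fin N)).filter fun q => q.1 ≠ q.2).biUnion fun q =>
        (univ : Finset (Om GP QQ N)).filter fun ω => NA G (pth ω q.1) (pth ω q.2) := by
    intro ω hω
    rw [mem_sdiff] at hω
    have h1 := hω.2
    unfold Om0 at h1
    rw [mem_filter] at h1
    push Not at h1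
    obtain ⟨i, j, hij, h2⟩ := h1 (mem_univ _)
    rw [mem_biUnion]
    rcases na_of_not_sep G _ _ h2 with h3 | h3
    · exact ⟨(i, j), mem_filter.2 ⟨mem_univ _, hij⟩, mem_filter.2 ⟨mem_univ _, h3⟩⟩
    · exact ⟨(j, i), mem_filter.2 ⟨mem_univ _, hij.symm⟩, mem_filter.2 ⟨mem_univ _, h3⟩⟩
  have h5 : (((univ : Finset (Om GP QQ N)) \ Om0 G GP QQ N).card : ℝ) ≤
      ∑ q ∈ ((univ : Finset (Fin N × Fin N)).filter fun q => q.1 ≠ q.2),
        (((univ : Finset (Om GP QQ N)).filter fun ω =>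
          NA G (pth ω q.1) (pth ω q.2)).card : ℝ) := by
    have := (card_le_card hsub).trans card_biUnion_le
    exact_mod_cast this
  have hK0 : 0 ≤ ε * Fintype.card (Om GP QQ N) := by positivity
  calc (((univ : Finset (Om GP QQ N)) \ Om0 G GP QQ N).card : ℝ)
      ≤ ∑ q ∈ ((univ : Finset (Fin N × Fin N)).filter fun q => q.1 ≠ q.2),
          ε * Fintype.card (Om GP QQ N) := by
        refine h5.trans (sum_le_sum fun q hq => hpair q.1 q.2 (mem_filter.1 hq).2)
    _ ≤ ∑ q : Fin N × Fin N, ε * Fintype.card (Om GP QQ N) :=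
        sum_le_sum_of_subset_of_nonneg (subset_univ _) fun _ _ _ => hK0
    _ = (N : ℝ) ^ 2 * ε * Fintype.card (Om GP QQ N) := by
        rw [sum_const, card_univ, Fintype.card_prod, Fintype.card_fin, nsmul_eq_mul]
        push_cast
        ring

end Pool.Agent.Lib.MP_fce888_co.S.Geo
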