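import Pool.Agent.Lib.MP_fce888_co.S.Geo.Stm

set_option autoImplicit false

namespace Pool.Agent.Lib.MP_fce888_co.S.Geo

open Finset Pool.Agent.Lib.MP_fce888_co Pool.Agent.Lib.MP_fce888_co.S
open scoped Classical

private lemma p_cir_edge {V : Type} {L s0 s1 : ℕ} {x y : ℕ → V} (h2 : s0 + s1 + 2 ≤ L)
    (hint : ∀ t1 t2, t1 ≤ L → t2 ≤ L → (x t1 = y t2 ↔ t1 = t2 ∧ (t1 ≤ s0 ∨ L ≤ t1 + s1)))
    {t : ℕ} (ht : t < L) (he : s(x t, x (t + 1)) ∈ ed 0 L y) : t + 1 ≤ s0 ∨ L ≤ t + s1 := by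
  obtain ⟨t', _, ht', he⟩ := mem_ed.1 he
  rw [Sym2.eq_iff] at he
  rcases he with ⟨e1, e2⟩ | ⟨e1, e2⟩
  · have k1 := (hint t t' (by omega) (by omega)).1 e1
    have k2 := (hint (t + 1) (t' + 1) (by omega) (by omega)).1 e2
    omega
  · have k1 := (hint t (t' + 1) (by omega) (by omega)).1 e1
    have k2 := (hint (t + 1) t' (by omega) (by omega)).1 e2
    omega

private lemma p_cir_edge' {V : Type} {L s0 s1 : ℕ} {x y : ℕ → V}
    (hint : ∀ t1 t2, t1 ≤ L → t2 ≤ L → (x t1 = y t2 ↔ t1 = t2 ∧ (t1 ≤ s0 ∨ L ≤ t1 + s1)))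
    {t : ℕ} (ht : t < L) (he : t + 1 ≤ s0 ∨ L ≤ t + s1) : s(x t, x (t + 1)) ∈ ed 0 L y := by
  rw [mem_ed]
  refine ⟨t, Nat.zero_le _, ht, ?_⟩
  rw [(hint t t (by omega) (by omega)).2 ⟨rfl, by omega⟩,
    (hint (t + 1) (t + 1) (by omega) (by omega)).2 ⟨rfl, by omega⟩]

theorem p_cir (h_cyc : D_cyc) : D_cir := by
  intro V _ G L s0 s1 x y hx hy h2 hint
  have hint' : ∀ t1 t2, t1 ≤ L → t2 ≤ L →
      (y t1 = x t2 ↔ t1 = t2 ∧ (t1 ≤ s0 ∨ L ≤ t1 + s1)) := by
    intro t1 t2 h1 h3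
    constructor
    · intro h
      have := (hint t2 t1 h3 h1).1 h.symm
      omega
    · rintro ⟨rfl, h⟩
      exact ((hint t1 t1 h1 h1).2 ⟨rfl, h⟩).symm
  obtain ⟨l, hl⟩ : ∃ l, L - s0 - s1 = l := ⟨_, rfl⟩
  have hL : L = s0 + s1 + l := by omega
  have hl2 : 2 ≤ l := by omega
  rw [hl]
  set c := cir L s0 s1 x y with hc
  have clo : ∀ k, k ≤ l → c k = x (s0 + k) := by
    intro k hk
    rw [hc]; unfold cir
    rw [hl, if_pos hk]
  have chi : ∀ k, l ≤ k → c k = y (s0 + 2 * l - k) := by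
    intro k hk
    rcases Nat.eq_or_lt_of_le hk with h | h
    · rw [← h, clo l le_rfl, (hint (s0 + l) (s0 + l) (by omega) (by omega)).2 ⟨rfl, by omega⟩]
      congr 1
      omega
    · rw [hc]; unfold cir
      rw [hl, if_neg (by omega)]
  have hcross : ∀ i j, i ≤ l → l < j → j < 2 * l → c i = c j → False := by
    intro i j hi hj hj2 hij
    rw [clo i hi, chi j hj.le] at hij
    have := (hint _ _ (by omega) (by omega)).1 hij
    omega
  have h := h_cyc V G (2 * l) c (by omega) (by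
    intro i j hi hj hij
    rcases le_or_gt i l with h1 | h1
    · rcases le_or_gt j l with h3 | h3
      · rw [clo i h1, clo j h3] at hij
        have := hx.inj _ _ (by omega) (by omega) hij
        omega
      · exact (hcross i j h1 h3 hj hij).elim
    · rcases le_or_gt j l with h3 | h3
      · exact (hcross j i h3 h1 hi hij.symm).elim
      · rw [chi i h1.le, chi j h3.le] at hij
        have := hy.inj _ _ (by omega) (by omega) hij
        omega) (by
    intro k hk
    rcases lt_or_ge k l with h1 | h1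
    · rw [clo k h1.le, clo (k + 1) h1]
      exact hx.adj (s0 + k) (by omega)
    · rw [chi k h1, chi (k + 1) (by omega)]
      have e1 : s0 + 2 * l - k = s0 + 2 * l - (k + 1) + 1 := by omega
      rw [e1]
      exact (hy.adj _ (by omega)).symm) (by
    rw [chi (2 * l) (by omega), clo 0 (by omega)]
    have e1 : s0 + 2 * l - 2 * l = s0 := by omega
    rw [e1, Nat.add_zero]
    exact ((hint s0 s0 (by omega) (by omega)).2 ⟨rfl, by omega⟩).symm)
  have hed : ed 0 (2 * l) c = (ed 0 L x \ ed 0 L y) ∪ (ed 0 L y \ ed 0 L x) := by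
    ext e
    rw [mem_union, mem_sdiff, mem_sdiff]
    constructor
    · intro he
      obtain ⟨t, _, ht, rfl⟩ := mem_ed.1 he
      rcases lt_or_ge t l with h1 | h1
      · left
        rw [clo t h1.le, clo (t + 1) h1]
        refine ⟨mem_ed.2 ⟨s0 + t, Nat.zero_le _, by omega, rfl⟩, ?_⟩
        intro hm
        have := p_cir_edge h2 hint (t := s0 + t) (by omega) hm
        omega
      · right
        rw [chi t h1, chi (t + 1) (by omega)]
        have e1 : s0 + 2 * l - t = s0 + 2 * l - (t + 1) + 1 := by omega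
        rw [e1, Sym2.eq_swap]
        refine ⟨mem_ed.2 ⟨s0 + 2 * l - (t + 1), Nat.zero_le _, by omega, rfl⟩, ?_⟩
        intro hm
        have := p_cir_edge h2 hint' (t := s0 + 2 * l - (t + 1)) (by omega) hm
        omega
    · rintro (⟨he, hn⟩ | ⟨he, hn⟩)
      · obtain ⟨t, _, ht, rfl⟩ := mem_ed.1 he
        have h1 : ¬ (t + 1 ≤ s0 ∨ L ≤ t + s1) := fun hh => hn (p_cir_edge' hint ht hh)
        rw [mem_ed]
        refine ⟨t - s0, Nat.zero_le _, by omega, ?_⟩
        rw [clo _ (by omega), clo _ (by omega)]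
        have e1 : s0 + (t - s0) = t := by omega
        have e2 : s0 + (t - s0 + 1) = t + 1 := by omega
        rw [e1, e2]
      · obtain ⟨t, _, ht, rfl⟩ := mem_ed.1 he
        have h1 : ¬ (t + 1 ≤ s0 ∨ L ≤ t + s1) := fun hh => hn (p_cir_edge' hint' ht hh)
        rw [mem_ed]
        refine ⟨s0 + 2 * l - (t + 1), Nat.zero_le _, by omega, ?_⟩
        rw [chi _ (by omega), chi _ (by omega)]
        have e1 : s0 + 2 * l - (s0 + 2 * l - (t + 1)) = t + 1 := by omega
        have e2 : s0 + 2 * l - (s0 + 2 * l - (t + 1) + 1) = t := by omega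
        rw [e1, e2, Sym2.eq_swap]
  rw [hed] at h
  exact h

end Pool.Agent.Lib.MP_fce888_co.S.Geo
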