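import Pool.Agent.Lib.MP_fce888_co.S.Geo.Stm

set_option autoImplicit false

/-!
# MP_fce888_co [Sd cou]: counting functions
-/

namespace Pool.Agent.Lib.MP_fce888_co.S.Geo

open Finset Pool.Agent.Lib.MP_fce888_co Pool.Agent.Lib.MP_fce888_co.S
open scoped Classical

private theorem cou_inj {α : Type} {N : ℕ} (j : Fin N) :
    Function.Injective (fun p : (Fin N → α) × α => (Function.update p.1 j p.2, p.1 j)) := by
  rintro ⟨f, a⟩ ⟨g, b⟩ h
  simp only [Prod.mk.injEq] at h
  obtain ⟨h1, h2⟩ := h
  have hab : a = b := by
    have := congrFun h1 j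
    simpa using this
  have hfg : f = g := by
    funext k
    by_cases hk : k = j
    · rw [hk]
      exact h2
    · have := congrFun h1 k
      simpa [Function.update_of_ne hk] using this
  rw [hab, hfg]

theorem p_cou : D_cou := by
  intro α _ N A ε hε hA i j hij
  have hA' := hA
  set m0 : ℕ := Fintype.card α with hm0
  by_cases hm : m0 = 0
  · have : ((univ : Finset (Fin N → α)).filter fun f => A (f i) (f j)) = ∅ := by
      rw [Finset.eq_empty_iff_forall_notMem]
      intro f _
      have := Fintype.card_eq_zero_iff.1 hm
      exact this.elim (f i)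
    rw [this, Finset.card_empty]
    push_cast
    positivity
  have hm0' : (0 : ℝ) < m0 := by
    have : 0 < m0 := Nat.pos_of_ne_zero hm
    exact_mod_cast this
  -- the injection
  have hle : (((univ : Finset (Fin N → α)).filter fun f => A (f i) (f j)) ×ˢ (univ : Finset α)).card
      ≤ ((univ : Finset (Fin N → α)).sigma
        fun f => (univ : Finset α).filter fun b => A (f i) b).card := by
    apply Finset.card_le_card_of_injOn
      (fun p : (Fin N → α) × α => (⟨Function.update p.1 j p.2, p.1 j⟩ : Σ _ : Fin N → α, α))
    · rintro ⟨f, a⟩ hp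
      simp only [Finset.coe_product, Set.mem_prod, Finset.mem_coe, Finset.mem_filter,
        Finset.mem_univ, true_and, and_true] at hp
      simp only [Finset.mem_coe, Finset.mem_sigma, Finset.mem_univ, Finset.mem_filter, true_and]
      rw [Function.update_of_ne hij]
      exact hp
    · intro p _ q _ h
      apply cou_inj j
      simp only [Sigma.mk.injEq, heq_eq_eq] at h
      exact Prod.ext h.1 h.2
  rw [Finset.card_product, Finset.card_univ, Finset.card_sigma] at hle
  have hle' : (((univ : Finset (Fin N → α)).filter fun f => A (f i) (f j)).card : ℝ) * m0 ≤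
      ∑ f : Fin N → α, (((univ : Finset α).filter fun b => A (f i) b).card : ℝ) := by
    exact_mod_cast hle
  have hsum : ∑ f : Fin N → α, (((univ : Finset α).filter fun b => A (f i) b).card : ℝ) ≤
      (m0 : ℝ) ^ N * (ε * m0) := by
    calc ∑ f : Fin N → α, (((univ : Finset α).filter fun b => A (f i) b).card : ℝ)
        ≤ ∑ _f : Fin N → α, ε * m0 := Finset.sum_le_sum fun f _ => hA' (f i)
      _ = (m0 : ℝ) ^ N * (ε * m0) := by
          rw [Finset.sum_const, Finset.card_univ, nsmul_eq_mul, Fintype.card_fun, Fintype.card_fin]
          push_cast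
          rfl
  have := hle'.trans hsum
  have h3 : (((univ : Finset (Fin N → α)).filter fun f => A (f i) (f j)).card : ℝ) * m0 ≤
      (ε * (m0 : ℝ) ^ N) * m0 := by
    refine this.trans (le_of_eq ?_)
    ring
  exact le_of_mul_le_mul_right h3 hm0'

end Pool.Agent.Lib.MP_fce888_co.S.Geo
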