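import Pool.Agent.Lib.MP_fce888_co.S.Geo.Stm

set_option autoImplicit false

/-!
# MP_fce888_co, sections S-d and S-e: a closed sequence without repetition is a circuit
-/

namespace Pool.Agent.Lib.MP_fce888_co.S.Geo

open Finset Pool.Agent.Lib.MP_fce888_co Pool.Agent.Lib.MP_fce888_co.S
open scoped Classical

/-- the index of `z` and its successor -/
private theorem p_cyc_step {V : Type} (m : ℕ) (c : ℕ → V) (hm : 3 ≤ m) (hc : c m = c 0) (z : ℤ) :
    ∃ k : ℕ, k < m ∧ (z % (m : ℤ)) = k ∧ per m c z = c k ∧ per m c (z + 1) = c (k + 1) := by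
  have hm' : (0 : ℤ) < m := by exact_mod_cast (by omega : 0 < m)
  have h0 : 0 ≤ z % (m : ℤ) := Int.emod_nonneg _ (by omega)
  have h1 : z % (m : ℤ) < m := Int.emod_lt_of_pos _ hm'
  obtain ⟨k, hk⟩ := Int.eq_ofNat_of_zero_le h0
  have hkm : k < m := by
    rw [hk] at h1
    exact_mod_cast h1
  refine ⟨k, hkm, hk, ?_, ?_⟩
  · unfold per
    rw [hk]
    simp
  · unfold per
    have h2 : (z + 1) % (m : ℤ) = ((k : ℤ) + 1) % (m : ℤ) := by
      rw [Int.add_emod, hk, Int.add_emod (k : ℤ) 1, Int.emod_eq_of_lt (a := (k : ℤ)) (by omega)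
        (by exact_mod_cast hkm)]
    rw [h2]
    by_cases h3 : k + 1 < m
    · rw [Int.emod_eq_of_lt (by omega) (by exact_mod_cast h3)]
      congr 1
    · have h4 : k + 1 = m := by omega
      have h5 : ((k : ℤ) + 1) = m := by exact_mod_cast h4
      rw [h5, Int.emod_self, h4, hc]
      rfl

theorem p_cyc : D_cyc := by
  intro V _ G m c hm hinj hadj hc
  have hm' : (0 : ℤ) < m := by exact_mod_cast (by omega : 0 < m)
  refine ⟨hm, ?_, ?_, ?_⟩
  · intro i j
    obtain ⟨a, ha, ha1, ha2, -⟩ := p_cyc_step m c hm hc i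
    obtain ⟨b, hb, hb1, hb2, -⟩ := p_cyc_step m c hm hc j
    rw [ha2, hb2]
    constructor
    · intro h
      have hab := hinj a b ha hb h
      have h1 : i % (m : ℤ) = j % (m : ℤ) := by rw [ha1, hb1, hab]
      exact Int.ModEq.dvd (show j % (m : ℤ) = i % (m : ℤ) from h1.symm)
    · intro h
      have h1 : j % (m : ℤ) = i % (m : ℤ) := Int.modEq_iff_dvd.2 h
      rw [ha1, hb1] at h1
      have h2 : a = b := by exact_mod_cast h1.symm
      rw [h2]
  · intro i
    obtain ⟨a, ha, -, ha2, ha3⟩ := p_cyc_step m c hm hc i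
    rw [ha2, ha3]
    exact hadj a ha
  · unfold ed
    rw [← range_eq_Ico]
    refine image_congr ?_
    intro k hk
    have hk' : k < m := by simpa using hk
    obtain ⟨a, ha, ha1, ha2, ha3⟩ := p_cyc_step m c hm hc (k : ℤ)
    have h1 : a = k := by
      rw [Int.emod_eq_of_lt (by omega) (by exact_mod_cast hk')] at ha1
      exact_mod_cast ha1.symm
    subst h1
    show s(c a, c (a + 1)) = s(per m c (a : ℤ), per m c ((a : ℤ) + 1))
    rw [ha2, ha3]

end Pool.Agent.Lib.MP_fce888_co.S.Geo
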