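import Pool.Agent.Lib.MP_fce888_co.S.Geo.Stm

set_option autoImplicit false

/-!
# MP_fce888_co, section S-d, piece [flat]: few paths come near a given path
-/

namespace Pool.Agent.Lib.MP_fce888_co.S.Geo

open Finset Pool.Agent.Lib.MP_fce888_co Pool.Agent.Lib.MP_fce888_co.S
open scoped Classical

private theorem p_flat_biU {α β : Type} [DecidableEq β] (s : Finset α) (f : α → Finset β) (B : ℝ)
    (h : ∀ a ∈ s, ((f a).card : ℝ) ≤ B) : ((s.biUnion f).card : ℝ) ≤ s.card * B := by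
  have h1 : ((s.biUnion f).card : ℝ) ≤ ((∑ a ∈ s, (f a).card : ℕ) : ℝ) := by
    exact_mod_cast card_biUnion_le
  refine h1.trans ?_
  rw [Nat.cast_sum]
  refine (Finset.sum_le_sum h).trans ?_
  rw [Finset.sum_const, nsmul_eq_mul]

private theorem p_flat_bet {n t : ℕ} (hn : 1 ≤ n) (h1 : R2 n ≤ t) (h2 : t + R2 n ≤ LL n) :
    bet n t ≤ 3 * (1 / 2) ^ R2 n := by
  have e1 : ((1 : ℝ) / 2) ^ t ≤ (1 / 2) ^ R2 n :=
    pow_le_pow_of_le_one (by norm_num) (by norm_num) h1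
  have e2 : ((1 : ℝ) / 2) ^ (LL n - t) ≤ (1 / 2) ^ R2 n :=
    pow_le_pow_of_le_one (by norm_num) (by norm_num) (by omega)
  have e3 : 1 / (n : ℝ) ≤ (1 / 2) ^ R2 n := by
    have h3 : R2 n ≤ lam n := by
      unfold R2 rn
      omega
    have h4 : 2 ^ R2 n ≤ n :=
      (Nat.pow_le_pow_right (by norm_num) h3).trans (Nat.pow_log_le_self 2 (by omega))
    have h5 : (2 : ℝ) ^ R2 n ≤ n := by exact_mod_cast h4
    rw [one_div_pow]
    exact one_div_le_one_div_of_le (by positivity) h5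
  unfold bet
  linarith

theorem p_flat : D_flat := by
  intro V _ G c L4 GP QQ m0 hG hcub hB hL4 hn p hp Q hQ
  set n := Fintype.card V with hndef
  set B : ℝ := L4 * m0 * (3 * (1 / 2) ^ R2 n) with hBdef
  have hB0 : 0 ≤ B := by positivity
  have hb : ∀ t2, R2 n ≤ t2 → t2 + R2 n ≤ LL n → ∀ v,
      (((QQ p).filter fun Q' => Q'[t2]? = some v).card : ℝ) ≤ B := by
    intro t2 h1 h2 v
    have h0 : t2 ≤ LL n := by omega
    refine (hB.flat p hp t2 h0 v).trans ?_
    rw [hBdef]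
    exact mul_le_mul_of_nonneg_left (p_flat_bet hn h1 h2) (by positivity)
  have hlen : Q.length = LL n + 1 := (mem_paths.1 (hB.good p hp Q hQ).path).1
  set F : ℕ → Finset (List V) := fun t1 =>
    ((range (LL n + 1)).filter fun t2 => R2 n ≤ t2 ∧ t2 + R2 n ≤ LL n).biUnion fun t2 =>
      (univ.filter fun v => G.dist (Q.getD t1 p.1) v < rn n + 1).biUnion fun v =>
        (QQ p).filter fun Q' => Q'[t2]? = some v with hF
  have hsub : ((QQ p).filter fun Q' => ∃ (t1 t2 : ℕ) (u v : V), Q[t1]? = some u ∧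
      Q'[t2]? = some v ∧ R2 n ≤ t2 ∧ t2 + R2 n ≤ LL n ∧ G.dist u v ≤ rn n) ⊆
      (range (LL n + 1)).biUnion F := by
    intro Q' hQ'
    obtain ⟨hQ', t1, t2, u, v, h1, h2, h3, h4, h5⟩ := mem_filter.1 hQ'
    rw [mem_biUnion]
    refine ⟨t1, ?_, ?_⟩
    · rw [mem_range, ← hlen]
      exact (List.getElem?_eq_some_iff.1 h1).1
    · rw [hF]
      simp only
      rw [mem_biUnion]
      refine ⟨t2, mem_filter.2 ⟨mem_range.2 (by omega), h3, h4⟩, ?_⟩
      rw [mem_biUnion]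
      refine ⟨v, mem_filter.2 ⟨mem_univ _, ?_⟩, mem_filter.2 ⟨hQ', h2⟩⟩
      rw [List.getD_eq_getElem?_getD, h1]
      exact Nat.lt_succ_of_le h5
  have hFc : ∀ t1 ∈ range (LL n + 1),
      ((F t1).card : ℝ) ≤ ((LL n + 1 : ℕ) : ℝ) * (2 ^ (rn n + 2) * B) := by
    intro t1 _
    refine (p_flat_biU _ _ (2 ^ (rn n + 2) * B) fun t2 ht2 => ?_).trans ?_
    · obtain ⟨_, h1, h2⟩ := mem_filter.1 ht2
      refine (p_flat_biU _ _ B fun v _ => hb t2 h1 h2 v).trans ?_
      refine mul_le_mul_of_nonneg_right ?_ hB0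
      have := ball_card hG hcub (rn n + 1) (Q.getD t1 p.1)
      exact_mod_cast this
    · refine mul_le_mul_of_nonneg_right ?_ (by positivity)
      have : ((range (LL n + 1)).filter fun t2 => R2 n ≤ t2 ∧ t2 + R2 n ≤ LL n).card ≤
          LL n + 1 := (card_filter_le _ _).trans (card_range _).le
      exact_mod_cast this
  have hle := card_le_card hsub
  have hle' : (((QQ p).filter fun Q' => ∃ (t1 t2 : ℕ) (u v : V), Q[t1]? = some u ∧
      Q'[t2]? = some v ∧ R2 n ≤ t2 ∧ t2 + R2 n ≤ LL n ∧ G.dist u v ≤ rn n).card : ℝ) ≤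
      (((range (LL n + 1)).biUnion F).card : ℝ) := by exact_mod_cast hle
  refine hle'.trans ((p_flat_biU _ _ _ hFc).trans ?_)
  rw [card_range, hBdef]
  apply le_of_eq
  ring

end Pool.Agent.Lib.MP_fce888_co.S.Geo
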