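import Pool.Agent.Lib.MP_fce888_co.S.Geo.Stm

set_option autoImplicit false

/-! # MP_fce888_co, section S-d, piece [Sd good] (helper1) -/

namespace Pool.Agent.Lib.MP_fce888_co.S.Geo

open Finset Pool.Agent.Lib.MP_fce888_co Pool.Agent.Lib.MP_fce888_co.S
open scoped Classical

private lemma p_good_mod {m : ℕ} (a b : ℤ) (p q k : ℤ) (hp : p = a % m) (hq : q = b % m)
    (h : (m : ℤ) ∣ q - p - k) : (m : ℤ) ∣ b - a - k := by
  have h1 : (m : ℤ) ∣ (b - b % m) := Int.dvd_self_sub_emod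
  have h2 : (m : ℤ) ∣ (a - a % m) := Int.dvd_self_sub_emod
  have h3 : b - a - k = (b - b % m) - (a - a % m) + (q - p - k) := by
    rw [hp, hq]; ring
  rw [h3]
  exact dvd_add (dvd_sub h1 h2) h

theorem p_good (h_pair : D_pair) (h_cir : D_cir) (h_near : D_near) (h_arc : D_arc) : D_good := by
  intro V _ G L R R1 R2 rn r ι x hG hN hF i j hij
  obtain ⟨s0, s1, hs0, hs1, hs⟩ := h_pair V G L R R1 R2 rn r ι x hG hN hF i j hij
  have ha := hN.a
  have hb := hN.b
  have hc := hN.c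
  have hf := hN.f
  have hcyc := h_cir V G L s0 s1 (x i) (x j) (hF.pf i) (hF.pf j) (by omega) hs
  refine ⟨2 * (L - s0 - s1), per (2 * (L - s0 - s1)) (cir L s0 s1 (x i) (x j)), hcyc, by omega,
    by omega, ?_⟩
  intro a b hab
  have hmL : L ≤ 2 * (L - s0 - s1) := by omega
  generalize hm : 2 * (L - s0 - s1) = m at *
  have hmpos : (0 : ℤ) < m := by omega
  have hp0 : 0 ≤ a % (m : ℤ) := Int.emod_nonneg _ hmpos.ne'
  have hp1 : a % (m : ℤ) < m := Int.emod_lt_of_pos _ hmpos
  have hq0 : 0 ≤ b % (m : ℤ) := Int.emod_nonneg _ hmpos.ne'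
  have hq1 : b % (m : ℤ) < m := Int.emod_lt_of_pos _ hmpos
  have hpe : (((a % (m : ℤ)).toNat : ℕ) : ℤ) = a % (m : ℤ) := Int.toNat_of_nonneg hp0
  have hqe : (((b % (m : ℤ)).toNat : ℕ) : ℤ) = b % (m : ℤ) := Int.toNat_of_nonneg hq0
  have hpl : (a % (m : ℤ)).toNat < m := by omega
  have hql : (b % (m : ℤ)).toNat < m := by omega
  have hnear := h_near V G L R R1 R2 rn r s0 s1 ι x hG hN hF i j hij hs0 hs1
    (a % (m : ℤ)).toNat (b % (m : ℤ)).toNat (by rw [hm]; exact hpl) (by rw [hm]; exact hql)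
    (le_trans hab (by omega))
  rw [hm] at hnear
  obtain ⟨k, hk, hk2⟩ := hnear
  have hUW : UW G R (per m (cir L s0 s1 (x i) (x j)) a) := by
    show UW G R (cir L s0 s1 (x i) (x j) (a % (m : ℤ)).toNat)
    unfold cir
    split_ifs with hif
    · exact hF.up i _ (by omega)
    · exact hF.up j _ (by omega)
  have harc := h_arc V G R _ m (per m (cir L s0 s1 (x i) (x j))) hG hcyc a k hUW (by omega) (by omega)
  rcases hk2 with hk2 | hk2
  · have h1 : (m : ℤ) ∣ b - a - k := p_good_mod a b _ _ k hpe hqe hk2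
    have hg : per m (cir L s0 s1 (x i) (x j)) b = per m (cir L s0 s1 (x i) (x j)) (a + k) :=
      (hcyc.2.1 b (a + k)).2 (by
        have : b - (a + k) = b - a - k := by ring
        rw [this]; exact h1)
    left
    rw [hg, harc.1]
    exact h1
  · have h1 : (m : ℤ) ∣ a - b - k := p_good_mod b a _ _ k hqe hpe hk2
    have hg : per m (cir L s0 s1 (x i) (x j)) b = per m (cir L s0 s1 (x i) (x j)) (a - k) :=
      (hcyc.2.1 b (a - k)).2 (by
        have : b - (a - k) = -(a - b - k) := by ring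
        rw [this, dvd_neg]; exact h1)
    right
    rw [hg, harc.2]
    exact h1

end Pool.Agent.Lib.MP_fce888_co.S.Geo
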