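import Pool.Agent.Lib.MP_fce888_co.S.Geo.Stm

set_option autoImplicit false

/-!
# MP_fce888_co, [Sd join]: near points of the union of a family are joined inside the union
-/

namespace Pool.Agent.Lib.MP_fce888_co.S.Geo

open Finset Pool.Agent.Lib.MP_fce888_co Pool.Agent.Lib.MP_fce888_co.S
open scoped Classical

/-- the walk along a path, edges in the whole path -/
theorem p_join_walk (h_seg : D_seg) {V : Type} {G : SimpleGraph V} {L : ℕ} {x : ℕ → V}
    (hx : PF G L x) {s t : ℕ} (hst : s ≤ t) (ht : t ≤ L) :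
    ∃ p : G.Walk (x s) (x t), p.length = t - s ∧ ∀ e ∈ p.edges, e ∈ ed 0 L x := by
  obtain ⟨p, -, h1, h2, -⟩ := h_seg V G L x hx s t hst ht
  refine ⟨p, h1, fun e he => ?_⟩
  obtain ⟨k, hk1, hk2, hk3⟩ := mem_ed.1 (h2 e he)
  exact mem_ed.2 ⟨k, Nat.zero_le _, by omega, hk3⟩

/-- the walk backwards -/
theorem p_join_walk' (h_seg : D_seg) {V : Type} {G : SimpleGraph V} {L : ℕ} {x : ℕ → V}
    (hx : PF G L x) {s t : ℕ} (hst : s ≤ t) (ht : t ≤ L) :
    ∃ p : G.Walk (x t) (x s), p.length = t - s ∧ ∀ e ∈ p.edges, e ∈ ed 0 L x := by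
  obtain ⟨p, h1, h2⟩ := p_join_walk h_seg hx hst ht
  refine ⟨p.reverse, by rw [SimpleGraph.Walk.length_reverse, h1], fun e he => h2 e ?_⟩
  rw [SimpleGraph.Walk.edges_reverse, List.mem_reverse] at he
  exact he

/-- two walks through a common point -/
theorem p_join_app {V : Type} {G : SimpleGraph V} {A B : Finset (Sym2 V)} {a b c d : V}
    {k l R : ℕ} (p : G.Walk a b) (q : G.Walk c d) (hbc : b = c) (hp : p.length = k)
    (hq : q.length = l) (hR : 2 * (k + l) ≤ R) (hpA : ∀ e ∈ p.edges, e ∈ A)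
    (hqB : ∀ e ∈ q.edges, e ∈ B) :
    ∃ w : G.Walk a d, 2 * w.length ≤ R ∧ ∀ e ∈ w.edges, e ∈ A ∨ e ∈ B := by
  subst hbc
  refine ⟨p.append q, ?_, fun e he => ?_⟩
  · rw [SimpleGraph.Walk.length_append, hp, hq]
    exact hR
  · rw [SimpleGraph.Walk.edges_append, List.mem_append] at he
    rcases he with he | he
    · exact Or.inl (hpA e he)
    · exact Or.inr (hqB e he)

theorem p_join (h_seg : D_seg) (h_zone : D_zone) : D_join := by
  intro V G L R R1 R2 rn r ι x hG hN hF i j s t hs ht hd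
  have n1 := hN.a
  have n2 := hN.b
  have n3 := hN.c
  have n4 := hN.d
  have n5 := hN.e
  have n6 := hN.f
  by_cases hij : i = j
  · subst hij
    rcases le_total s t with hst | hst
    · have h1 : t ≤ s + R1 := by
        by_contra hlt
        have := hF.self i s t (by omega) ht
        omega
      obtain ⟨p, hp1, hp2⟩ := p_join_walk h_seg (hF.pf i) hst ht
      exact ⟨p, by omega, fun e he => Or.inl (hp2 e he)⟩
    · have h1 : s ≤ t + R1 := by
        by_contra hlt
        have := hF.self i t s (by omega) hs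
        rw [SimpleGraph.dist_comm] at this
        omega
      obtain ⟨p, hp1, hp2⟩ := p_join_walk' h_seg (hF.pf i) hst hs
      exact ⟨p, by omega, fun e he => Or.inl (hp2 e he)⟩
  · rcases h_zone V G L R R1 R2 rn r ι x hG hN hF i j hij s t hs ht (by omega) with ⟨h1, h2⟩ | ⟨h1, h2⟩
    · obtain ⟨p, hp1, hp2⟩ := p_join_walk' h_seg (hF.pf i) (Nat.zero_le s) hs
      obtain ⟨q, hq1, hq2⟩ := p_join_walk h_seg (hF.pf j) (Nat.zero_le t) ht
      exact p_join_app p q (hF.ini i j) hp1 hq1 (by omega) hp2 hq2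
    · obtain ⟨p, hp1, hp2⟩ := p_join_walk h_seg (hF.pf i) hs le_rfl
      obtain ⟨q, hq1, hq2⟩ := p_join_walk' h_seg (hF.pf j) ht le_rfl
      exact p_join_app p q (hF.fin i j) hp1 hq1 (by omega) hp2 hq2

end Pool.Agent.Lib.MP_fce888_co.S.Geo
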