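import Pool.Agent.Lib.MP_fce888_co.S.Geo.Stm

set_option autoImplicit false

/-! # MP_fce888_co, section S-e, piece [Sd key] (helper1) -/

namespace Pool.Agent.Lib.MP_fce888_co.S.Geo

open Finset Pool.Agent.Lib.MP_fce888_co Pool.Agent.Lib.MP_fce888_co.S
open scoped Classical

theorem p_key : D_key := by
  intro V G R r ES a b θa θb pa pb q hR hq hES hUW hpa hla hlb hab hnot
  by_contra hcon
  rw [not_or] at hcon
  obtain ⟨hb, ha⟩ := hcon
  have h1 : (pa.concat hab).IsPath := hpa.concat hb hab
  have h2 : ((q.append pb).bypass).IsPath := SimpleGraph.Walk.bypass_isPath _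
  have h3 : (pa.concat hab).length ≤ R := by
    rw [SimpleGraph.Walk.length_concat]
    omega
  have h4 : ((q.append pb).bypass).length ≤ R := by
    have h := SimpleGraph.Walk.length_bypass_le_length (q.append pb)
    rw [SimpleGraph.Walk.length_append] at h
    omega
  have h5 := hUW b _ _ h1 h2 h3 h4
  have h6 : s(a, b) ∈ (pa.concat hab).edges := by
    rw [SimpleGraph.Walk.edges_concat]
    simp
  rw [h5] at h6
  have h7 := SimpleGraph.Walk.edges_bypass_subset_edges (q.append pb) h6
  rw [SimpleGraph.Walk.edges_append, List.mem_append] at h7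
  rcases h7 with h7 | h7
  · exact hnot (hES _ h7)
  · exact ha (SimpleGraph.Walk.fst_mem_support_of_mem_edges _ h7)

end Pool.Agent.Lib.MP_fce888_co.S.Geo
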