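import Pool.Agent.Lib.MP_fce888_co.S.Geo.Stm

set_option autoImplicit false

namespace Pool.Agent.Lib.MP_fce888_co.S.Geo

open Finset Pool.Agent.Lib.MP_fce888_co Pool.Agent.Lib.MP_fce888_co.S
open scoped Classical

private lemma p_nbhd_supp {V : Type} {G : SimpleGraph V} (hG : G.Connected) {u a v : V}
    (p : G.Walk u a) (hp : p.length = G.dist u a) (hav : G.Adj a v) (hv : v ∈ p.support) :
    G.dist u v < G.dist u a ∧ v = p.getVert (G.dist u a - 1) := by
  obtain ⟨i, hi, hil⟩ := SimpleGraph.Walk.mem_support_iff_exists_getVert.1 hv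
  have h1 : G.dist u v ≤ i := by
    have h2 := SimpleGraph.dist_le (p.take i)
    rw [SimpleGraph.Walk.take_length, hi] at h2
    exact h2.trans (min_le_left _ _)
  have h3 : G.dist u a ≤ G.dist u v + G.dist v a := hG.dist_triangle
  have h4 : G.dist v a = 1 := SimpleGraph.dist_eq_one_iff_adj.2 hav.symm
  have h5 : i ≠ p.length := by
    intro h
    rw [h, SimpleGraph.Walk.getVert_length] at hi
    exact hav.ne hi
  have h6 : i = G.dist u a - 1 := by omega
  refine ⟨by omega, ?_⟩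
  rw [← h6]
  exact hi.symm

theorem p_nbhd (h_key : D_key) : D_nbhd := by
  intro V _ G R r S ES hG hR hES hUW hjoin Z hZ hnear
  obtain ⟨m, γ, hc⟩ := hZ
  obtain ⟨c1, _, _, c4, _, c6, c7, _, _⟩ := C48.p_cyc V G Z m γ hc
  have hm : 3 ≤ m := hc.1
  -- nearest point of S
  have hSne : ∃ s, s ∈ S := by
    obtain ⟨u, hu, _⟩ := hnear (γ 0) ((c4 _).2 ⟨0, rfl⟩)
    exact ⟨u, hu⟩
  have hθ : ∀ a : V, ∃ u, u ∈ S ∧ ∀ w ∈ S, G.dist u a ≤ G.dist w a := by
    intro a
    obtain ⟨u, hu, hmin⟩ := Set.exists_min_image S (fun u => G.dist u a) S.toFinite hSne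
    exact ⟨u, hu, hmin⟩
  choose θ hθS hθmin using hθ
  have hp : ∀ a : V, ∃ p : G.Walk (θ a) a, p.length = G.dist (θ a) a := by
    intro a
    exact hG.exists_walk_length_eq_dist (θ a) a
  choose p hpl using hp
  set h : V → ℕ := fun a => G.dist (θ a) a with hh
  have hr : ∀ a ∈ vs Z, h a ≤ r := by
    intro a ha
    obtain ⟨u, hu, hur⟩ := hnear a ha
    exact (hθmin a u hu).trans hur
  -- step (1)
  have s1 : ∀ a v, G.Adj a v → v ∈ (p a).support → h v < h a ∧ v = (p a).getVert (h a - 1) := by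
    intro a v hav hv
    obtain ⟨k1, k2⟩ := p_nbhd_supp hG (p a) (hpl a) hav hv
    exact ⟨lt_of_le_of_lt (hθmin v (θ a) (hθS a)) k1, k2⟩
  -- step (2)
  have s2 : ∀ a b, a ∈ vs Z → b ∈ vs Z → G.Adj a b → s(a, b) ∉ ES →
      (h b < h a ∧ b = (p a).getVert (h a - 1)) ∨ h a < h b := by
    intro a b ha hb hab hn
    have hd : G.dist (θ a) (θ b) ≤ 2 * r + 1 := by
      have k1 : G.dist (θ a) (θ b) ≤ G.dist (θ a) a + G.dist a (θ b) := hG.dist_triangle
      have k2 : G.dist a (θ b) ≤ G.dist a b + G.dist b (θ b) := hG.dist_triangle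
      have k3 : G.dist a b = 1 := SimpleGraph.dist_eq_one_iff_adj.2 hab
      have k4 : G.dist b (θ b) = G.dist (θ b) b := SimpleGraph.dist_comm
      have k5 : G.dist (θ a) a ≤ r := hr a ha
      have k6 : G.dist (θ b) b ≤ r := hr b hb
      omega
    obtain ⟨q, hq, hqe⟩ := hjoin (θ a) (hθS a) (θ b) (hθS b) hd
    have hpa : (p a).IsPath := (p a).isPath_of_length_eq_dist (hpl a)
    rcases h_key V G R r ES a b (θ a) (θ b) (p a) (p b) q hR hq hqe (hUW _ (hθS a)) hpa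
      (by rw [hpl]; exact hr a ha) (by rw [hpl]; exact hr b hb) hab hn with k | k
    · exact Or.inl (s1 a b hab k)
    · exact Or.inr (s1 b a hab.symm k).1
  -- step (3)
  intro e he
  by_contra hne
  obtain ⟨i0, _, _, rfl⟩ := c7 e he 0
  have hv0 : γ i0 ∈ vs Z := (c4 _).2 ⟨i0, rfl⟩
  have hv1 : γ (i0 + 1) ∈ vs Z := (c4 _).2 ⟨i0 + 1, rfl⟩
  obtain ⟨a, haZ, hmax⟩ := Finset.exists_max_image (vs Z) h ⟨γ i0, hv0⟩
  have hpos : 0 < h a := by
    rcases s2 _ _ hv0 hv1 (hc.2.2.1 i0) hne with k | k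
    · exact lt_of_le_of_lt (Nat.zero_le _) (lt_of_lt_of_le k.1 (hmax _ hv0))
    · exact lt_of_le_of_lt (Nat.zero_le _) (lt_of_lt_of_le k (hmax _ hv1))
  have haS : a ∉ S := by
    intro haS
    have k1 : h a ≤ G.dist a a := hθmin a a haS
    rw [SimpleGraph.dist_self] at k1
    omega
  obtain ⟨i, rfl⟩ := (c4 a).1 haZ
  have hl : γ (i - 1) ∈ vs Z := (c4 _).2 ⟨i - 1, rfl⟩
  have hr' : γ (i + 1) ∈ vs Z := (c4 _).2 ⟨i + 1, rfl⟩
  have adjl : G.Adj (γ i) (γ (i - 1)) := by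
    have k := (hc.2.2.1 (i - 1)).symm
    have e1 : i - 1 + 1 = i := by ring
    rw [e1] at k
    exact k
  have nl : s(γ i, γ (i - 1)) ∉ ES := fun k => haS (hES _ k _ (Sym2.mem_mk_left _ _))
  have nr : s(γ i, γ (i + 1)) ∉ ES := fun k => haS (hES _ k _ (Sym2.mem_mk_left _ _))
  have kl : γ (i - 1) = (p (γ i)).getVert (h (γ i) - 1) := by
    rcases s2 _ _ haZ hl adjl nl with k | k
    · exact k.2
    · exact absurd (hmax _ hl) (not_le.2 k)
  have kr : γ (i + 1) = (p (γ i)).getVert (h (γ i) - 1) := by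
    rcases s2 _ _ haZ hr' (hc.2.2.1 i) nr with k | k
    · exact k.2
    · exact absurd (hmax _ hr') (not_le.2 k)
  have hd := (hc.2.1 (i - 1) (i + 1)).1 (kl.trans kr.symm)
  have e1 : i - 1 - (i + 1) = -2 := by ring
  rw [e1, dvd_neg] at hd
  have := Int.le_of_dvd (by norm_num) hd
  omega

end Pool.Agent.Lib.MP_fce888_co.S.Geo
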