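import Pool.Agent.Lib.MP_fce888_co.S.Geo.Stm

set_option autoImplicit false

/-!
# MP_fce888_co, sections S-d and S-e: [Sd near]
-/

namespace Pool.Agent.Lib.MP_fce888_co.S.Geo

open Finset Pool.Agent.Lib.MP_fce888_co Pool.Agent.Lib.MP_fce888_co.S
open scoped Classical

theorem p_near (h_zone : D_zone) : D_near := by
  intro V G L R R1 R2 rn r s0 s1 ι x hconn hnum hfam i j hij hs0 hs1 p q hp hq hd
  have ha := hnum.a
  have hb := hnum.b
  have hc := hnum.c
  have hdd := hnum.d
  have he := hnum.e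
  have hf := hnum.f
  obtain ⟨l, hl⟩ : ∃ l, l = L - s0 - s1 := ⟨_, rfl⟩
  have hl2 : s0 + s1 + l = L := by omega
  rw [← hl] at hp hq ⊢
  unfold cir at hd
  rw [← hl] at hd
  have hself : ∀ (a : ι) (s t : ℕ), s ≤ L → t ≤ L → G.dist (x a s) (x a t) ≤ rn →
      s ≤ t + R1 ∧ t ≤ s + R1 := by
    intro a s t hs ht h
    constructor
    · by_contra h1
      have h2 := hfam.self a t s (by omega) hs
      rw [G.dist_comm] at h2
      omega
    · by_contra h1
      have h2 := hfam.self a s t (by omega) ht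
      omega
  by_cases h1 : p ≤ l
  · by_cases h2 : q ≤ l
    · rw [if_pos h1, if_pos h2] at hd
      obtain ⟨h3, h4⟩ := hself i (s0 + p) (s0 + q) (by omega) (by omega) hd
      rcases Nat.le_total p q with h5 | h5
      · refine ⟨q - p, by omega, Or.inl ⟨0, ?_⟩⟩
        push_cast [Nat.cast_sub h5]
        ring
      · refine ⟨p - q, by omega, Or.inr ⟨0, ?_⟩⟩
        push_cast [Nat.cast_sub h5]
        ring
    · rw [if_pos h1, if_neg h2] at hd
      rcases h_zone V G L R R1 R2 rn r ι x hconn hnum hfam i j hij (s0 + p) (s0 + 2 * l - q)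
        (by omega) (by omega) hd with ⟨h3, h4⟩ | ⟨h3, h4⟩
      · refine ⟨p + (2 * l - q), by omega, Or.inr ⟨-1, ?_⟩⟩
        push_cast [Nat.cast_sub hq.le]
        ring
      · refine ⟨q - p, by omega, Or.inl ⟨0, ?_⟩⟩
        push_cast [Nat.cast_sub (show p ≤ q by omega)]
        ring
  · by_cases h2 : q ≤ l
    · rw [if_neg h1, if_pos h2] at hd
      rw [G.dist_comm] at hd
      rcases h_zone V G L R R1 R2 rn r ι x hconn hnum hfam i j hij (s0 + q) (s0 + 2 * l - p)
        (by omega) (by omega) hd with ⟨h3, h4⟩ | ⟨h3, h4⟩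
      · refine ⟨q + (2 * l - p), by omega, Or.inl ⟨-1, ?_⟩⟩
        push_cast [Nat.cast_sub hp.le]
        ring
      · refine ⟨p - q, by omega, Or.inr ⟨0, ?_⟩⟩
        push_cast [Nat.cast_sub (show q ≤ p by omega)]
        ring
    · rw [if_neg h1, if_neg h2] at hd
      obtain ⟨h3, h4⟩ := hself j (s0 + 2 * l - p) (s0 + 2 * l - q) (by omega) (by omega) hd
      rcases Nat.le_total p q with h5 | h5
      · refine ⟨q - p, by omega, Or.inl ⟨0, ?_⟩⟩
        push_cast [Nat.cast_sub h5]
        ring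
      · refine ⟨p - q, by omega, Or.inr ⟨0, ?_⟩⟩
        push_cast [Nat.cast_sub h5]
        ring

end Pool.Agent.Lib.MP_fce888_co.S.Geo
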