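import Pool.Agent.Lib.MP_fce888_co.S.Geo.Stm

set_option autoImplicit false

/-!
# MP_fce888_co [Sd num]: numerics
-/

namespace Pool.Agent.Lib.MP_fce888_co.S.Geo

open Finset Pool.Agent.Lib.MP_fce888_co Pool.Agent.Lib.MP_fce888_co.S
open scoped Classical

theorem p_num : D_num := by
  intro N b
  set C : ℝ := (N : ℝ) ^ 2 * 304 ^ 2 * 100 ^ b * 24 with hC
  have hC0 : 0 ≤ C := by positivity
  have hlim : Filter.Tendsto (fun k : ℕ => (k : ℝ) ^ (b + 2) * (1 / 2 : ℝ) ^ k) Filter.atTop (nhds 0) :=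
    tendsto_pow_const_mul_const_pow_of_abs_lt_one (b + 2) (by rw [abs_of_pos] <;> norm_num)
  have hpos : (0 : ℝ) < 1 / (10 * (C + 1)) := by positivity
  have hev := hlim.eventually (gt_mem_nhds hpos)
  obtain ⟨K, hK⟩ := Filter.eventually_atTop.1 hev
  refine ⟨2 ^ (100 * (K + 1000)), ?_⟩
  intro n hn
  have hlam : 100 * (K + 1000) ≤ lam n := by
    have h1 : lam n = Nat.log 2 n := rfl
    rw [h1]
    calc 100 * (K + 1000) = Nat.log 2 (2 ^ (100 * (K + 1000))) := (Nat.log_pow (by norm_num) _).symm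
      _ ≤ Nat.log 2 n := Nat.log_mono_right hn
  refine ⟨?_, ?_, ?_⟩
  · constructor <;> · simp only [LL, R0, R1, R2, rn, rr]; omega
  · exact le_trans Nat.one_le_two_pow hn
  · have hk : K + 1 ≤ rn n + 1 := by
      simp only [rn]
      omega
    have hl1 : lam n ≤ 100 * (rn n + 1) := by
      simp only [rn]
      omega
    have hl2 : LL n + 1 ≤ 304 * (rn n + 1) := by
      simp only [LL, rn]
      omega
    set k : ℕ := rn n with hkd
    have hR2 : R2 n = 2 * k := rfl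
    rw [hR2]
    have h1 : ((LL n + 1 : ℕ) : ℝ) ≤ 304 * ((k + 1 : ℕ) : ℝ) := by exact_mod_cast hl2
    have h2 : ((lam n : ℕ) : ℝ) ≤ 100 * ((k + 1 : ℕ) : ℝ) := by exact_mod_cast hl1
    have hKk := hK (k + 1) (by omega)
    have e1 : (2 : ℝ) ^ (k + 2) * (1 / 2) ^ (2 * k) = 4 * (1 / 2) ^ k := by
      have : (2 : ℝ) ^ k * (1 / 2) ^ k = 1 := by
        rw [← mul_pow]
        norm_num
      rw [two_mul, pow_add, pow_add]
      calc (2 : ℝ) ^ k * 2 ^ 2 * ((1 / 2) ^ k * (1 / 2) ^ k)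
          = ((2 : ℝ) ^ k * (1 / 2) ^ k) * 2 ^ 2 * (1 / 2) ^ k := by ring
        _ = 4 * (1 / 2) ^ k := by rw [this]; norm_num
    calc (N : ℝ) ^ 2 * (((LL n + 1 : ℕ) : ℝ) ^ 2 * 2 ^ (k + 2) *
          ((lam n : ℝ) ^ b * 3 * (1 / 2) ^ (2 * k)))
        = (N : ℝ) ^ 2 * 3 * ((LL n + 1 : ℕ) : ℝ) ^ 2 * (lam n : ℝ) ^ b *
          (2 ^ (k + 2) * (1 / 2) ^ (2 * k)) := by ring
      _ = (N : ℝ) ^ 2 * 3 * ((LL n + 1 : ℕ) : ℝ) ^ 2 * (lam n : ℝ) ^ b * (4 * (1 / 2) ^ k) := by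
          rw [e1]
      _ ≤ (N : ℝ) ^ 2 * 3 * (304 * ((k + 1 : ℕ) : ℝ)) ^ 2 * (100 * ((k + 1 : ℕ) : ℝ)) ^ b *
          (4 * (1 / 2) ^ k) := by
          gcongr
      _ = C * (((k + 1 : ℕ) : ℝ) ^ (b + 2) * (1 / 2) ^ (k + 1)) := by
          rw [hC, mul_pow, mul_pow, pow_add _ b 2, pow_succ (1 / 2 : ℝ) k]
          ring
      _ ≤ C * (1 / (10 * (C + 1))) := mul_le_mul_of_nonneg_left hKk.le hC0
      _ ≤ 1 / 10 := by
          rw [mul_one_div, div_le_div_iff₀ (by positivity) (by norm_num)]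
          nlinarith

end Pool.Agent.Lib.MP_fce888_co.S.Geo
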