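import Pool.Agent.Lib.MP_fce888_co.S.Geo.Stm

set_option autoImplicit false
set_option linter.unusedSectionVars false

/-!
# MP_fce888_co, S-d/S-e: piece pair (helper42)
-/

namespace Pool.Agent.Lib.MP_fce888_co.S.Geo

open Finset Pool.Agent.Lib.MP_fce888_co Pool.Agent.Lib.MP_fce888_co.S
open scoped Classical

/-- the reversed path -/
private theorem p_pair_rev {V : Type} {G : SimpleGraph V} {L : ℕ} {x : ℕ → V} (h : PF G L x) :
    PF G L (fun t => x (L - t)) := by
  refine ⟨?_, ?_⟩
  · intro s t hs ht hst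
    have := h.inj _ _ (Nat.sub_le L s) (Nat.sub_le L t) hst
    omega
  · intro t ht
    have h1 := (h.adj (L - (t + 1)) (by omega)).symm
    have h2 : L - (t + 1) + 1 = L - t := by omega
    rw [h2] at h1
    exact h1

theorem p_pair (h_ini : D_ini) (h_zone : D_zone) : D_pair := by
  intro V G L R R1 R2 rn r ι x hG hN hF i j hij
  have hc := hN.c
  have he := hN.e
  have hf := hN.f
  obtain ⟨s0, hs0, h0⟩ := h_ini V G L R R2 (x i) (x j) (hF.pf i) (hF.pf j)
    (hF.up i 0 (Nat.zero_le _)) (hF.ini i j) (by omega) (by omega) he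
  obtain ⟨s1, hs1, h1⟩ := h_ini V G L R R2 (fun t => x i (L - t)) (fun t => x j (L - t))
    (p_pair_rev (hF.pf i)) (p_pair_rev (hF.pf j))
    (hF.up i (L - 0) (Nat.sub_le _ _)) (by simpa using hF.fin i j) (by omega) (by omega) he
  refine ⟨s0, s1, hs0, hs1, ?_⟩
  intro t1 t2 ht1 ht2
  constructor
  · intro h
    have hd : G.dist (x i t1) (x j t2) ≤ rn := by
      rw [h, SimpleGraph.dist_self]
      exact Nat.zero_le _
    rcases h_zone V G L R R1 R2 rn r ι x hG hN hF i j hij t1 t2 ht1 ht2 hd with ⟨g1, g2⟩ | ⟨g1, g2⟩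
    · obtain ⟨g3, g4⟩ := (h0 t1 t2 g1 g2).1 h
      exact ⟨g3, Or.inl g4⟩
    · have e1 : L - (L - t1) = t1 := by omega
      have e2 : L - (L - t2) = t2 := by omega
      obtain ⟨g3, g4⟩ := (h1 (L - t1) (L - t2) (by omega) (by omega)).1 (by
        show x i (L - (L - t1)) = x j (L - (L - t2))
        rw [e1, e2]; exact h)
      exact ⟨by omega, Or.inr (by omega)⟩
  · rintro ⟨rfl, h | h⟩
    · exact (h0 t1 t1 (by omega) (by omega)).2 ⟨rfl, h⟩
    · have e1 : L - (L - t1) = t1 := by omega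
      have := (h1 (L - t1) (L - t1) (by omega) (by omega)).2 ⟨rfl, by omega⟩
      simp only [e1] at this
      exact this

end Pool.Agent.Lib.MP_fce888_co.S.Geo
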