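import Pool.Agent.Lib.MP_fce888_co.S.Geo.Stm

set_option autoImplicit false

/-! [Sd tb] no circuit in a ball around a vertex with the unique path property. -/

namespace Pool.Agent.Lib.MP_fce888_co.S.Geo

open Finset Pool.Agent.Lib.MP_fce888_co Pool.Agent.Lib.MP_fce888_co.S
open scoped Classical

theorem p_tb (h_nbhd : D_nbhd) : D_tb := by
  intro V _ G R r v hG hr hup Z hZ hball
  have h1 := h_nbhd V G R r {v} ∅ hG hr (fun e he => absurd he (Set.notMem_empty e))
    (fun u hu => by
      have hu' : u = v := hu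
      subst hu'
      exact hup)
    (fun u hu w hw _ => by
      have hu' : u = v := hu
      have hw' : w = v := hw
      subst hu'
      subst hw'
      exact ⟨SimpleGraph.Walk.nil, by simp, by simp⟩)
    Z hZ (fun u hu => ⟨v, rfl, hball u hu⟩)
  obtain ⟨m, γ, hm, -, -, hD⟩ := hZ
  have h2 : s(γ ((0 : ℕ) : ℤ), γ (((0 : ℕ) : ℤ) + 1)) ∈ Z := by
    rw [hD]
    exact Finset.mem_image.2 ⟨0, Finset.mem_range.2 (by omega), rfl⟩
  exact Set.notMem_empty _ (h1 _ h2)

end Pool.Agent.Lib.MP_fce888_co.S.Geo
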