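import Pool.Agent.Lib.MP_fce888_co.S.Geo.Main
import Pool.Agent.Lib.MP_fce888_co.S.Geo.P_acy
import Pool.Agent.Lib.MP_fce888_co.S.Geo.P_arc
import Pool.Agent.Lib.MP_fce888_co.S.Geo.P_attp
import Pool.Agent.Lib.MP_fce888_co.S.Geo.P_bad
import Pool.Agent.Lib.MP_fce888_co.S.Geo.P_cir
import Pool.Agent.Lib.MP_fce888_co.S.Geo.P_cou
import Pool.Agent.Lib.MP_fce888_co.S.Geo.P_cyc
import Pool.Agent.Lib.MP_fce888_co.S.Geo.P_flat
import Pool.Agent.Lib.MP_fce888_co.S.Geo.P_good
import Pool.Agent.Lib.MP_fce888_co.S.Geo.P_ini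
import Pool.Agent.Lib.MP_fce888_co.S.Geo.P_join
import Pool.Agent.Lib.MP_fce888_co.S.Geo.P_key
import Pool.Agent.Lib.MP_fce888_co.S.Geo.P_nbhd
import Pool.Agent.Lib.MP_fce888_co.S.Geo.P_near
import Pool.Agent.Lib.MP_fce888_co.S.Geo.P_num
import Pool.Agent.Lib.MP_fce888_co.S.Geo.P_pair
import Pool.Agent.Lib.MP_fce888_co.S.Geo.P_tb

set_option autoImplicit false

/-!
# MP_fce888_co, sections S-d and S-e: final theorem
-/

namespace Pool.Agent.Lib.MP_fce888_co.S.Geo

open Finset Pool.Agent.Lib.MP_fce888_co Pool.Agent.Lib.MP_fce888_co.S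
open scoped Classical

/-- every vertex of a circuit lies on two different edges of it -/
theorem deg : C48.S_deg := by
  intro V _ G Z hZ e he v hv
  obtain ⟨m, γ, h⟩ := hZ
  obtain ⟨c1, -, -, -, -, -, c7, c8, -⟩ := C48.p_cyc V G Z m γ h
  obtain ⟨i, -, -, rfl⟩ := c7 e he 0
  have hm := h.1
  rw [Sym2.mem_iff] at hv
  rcases hv with rfl | rfl
  · refine ⟨s(γ (i - 1), γ (i - 1 + 1)), c1 _, ?_, ?_⟩
    · intro hh
      have := (c8 _ _).1 hh
      have h1 : i - 1 - i = -1 := by ring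
      rw [h1] at this
      have := Int.eq_one_of_dvd_one (by omega) ((dvd_neg.1 this))
      omega
    · have : i - 1 + 1 = i := by ring
      rw [this]
      exact Sym2.mem_mk_right _ _
  · refine ⟨s(γ (i + 1), γ (i + 1 + 1)), c1 _, ?_, Sym2.mem_mk_left _ _⟩
    intro hh
    have := (c8 _ _).1 hh
    have h1 : i + 1 - i = 1 := by ring
    rw [h1] at this
    have := Int.eq_one_of_dvd_one (by omega) this
    omega

theorem t_ini : D_ini := p_ini p_seg
theorem t_pair : D_pair := p_pair t_ini p_zone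
theorem t_cir : D_cir := p_cir p_cyc
theorem t_near : D_near := p_near p_zone
theorem t_arc : D_arc := p_arc p_seg
theorem t_good : D_good := p_good t_pair t_cir t_near t_arc
theorem t_nbhd : D_nbhd := p_nbhd p_key
theorem t_tb : D_tb := p_tb t_nbhd
theorem t_join : D_join := p_join p_seg p_zone
theorem t_attp : D_attp := p_attp deg
theorem t_acy : D_acy := p_acy t_pair t_attp
theorem t_bad : D_bad := p_bad p_cou p_flat

theorem geo_all : GeoAll := geo_of t_good t_nbhd t_tb t_join t_acy t_bad p_num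

end Pool.Agent.Lib.MP_fce888_co.S.Geo
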