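import Pool.Agent.Lib.MP_fce888_co.S.Geo.P_seg

set_option autoImplicit false

namespace Pool.Agent.Lib.MP_fce888_co.S.Geo

open Finset Pool.Agent.Lib.MP_fce888_co Pool.Agent.Lib.MP_fce888_co.S
open scoped Classical

theorem dist_seg {V : Type} {G : SimpleGraph V} {L : ℕ} {x : ℕ → V} (hx : PF G L x) {s t : ℕ}
    (hst : s ≤ t) (ht : t ≤ L) : G.dist (x s) (x t) ≤ t - s := by
  obtain ⟨p, -, hl, -⟩ := p_seg V G L x hx s t hst ht
  rw [← hl]
  exact SimpleGraph.dist_le p

theorem p_zone : D_zone := by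
  intro V G L R R1 R2 rn r ι x hG hN hF i j hij s t hs ht hd
  have h1 : ¬ (R2 ≤ s ∧ s + R2 ≤ L) := by
    rintro ⟨h1, h2⟩
    have := hF.sep i j hij s t hs ht h1 h2
    omega
  have h2 : ¬ (R2 ≤ t ∧ t + R2 ≤ L) := by
    rintro ⟨h1, h2⟩
    have := hF.sep j i (Ne.symm hij) t s ht hs h1 h2
    rw [SimpleGraph.dist_comm] at this
    omega
  have hd' := hN.d
  have h3 : ¬ (s < R2 ∧ L < t + R2) := by
    rintro ⟨h3, h4⟩
    have a1 := dist_seg (hF.pf i) (Nat.zero_le s) hs
    have a2 := dist_seg (hF.pf j) ht le_rfl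
    have a3 := hG.dist_triangle (u := x i 0) (v := x i s) (w := x j t)
    have a4 := hG.dist_triangle (u := x i 0) (v := x j t) (w := x j L)
    have a5 := hF.far i j
    omega
  have h4 : ¬ (t < R2 ∧ L < s + R2) := by
    rintro ⟨h3, h4⟩
    have a1 := dist_seg (hF.pf j) (Nat.zero_le t) ht
    have a2 := dist_seg (hF.pf i) hs le_rfl
    have a3 := hG.dist_triangle (u := x j 0) (v := x j t) (w := x i s)
    have a4 := hG.dist_triangle (u := x j 0) (v := x i s) (w := x i L)
    have a5 := hF.far j i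
    rw [SimpleGraph.dist_comm (u := x j t) (v := x i s)] at a3
    omega
  omega

end Pool.Agent.Lib.MP_fce888_co.S.Geo
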