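import Pool.Agent.Lib.MP_fce888_co.S.Geo.P_conv
import Pool.Agent.Lib.MP_fce888_co.S.Geo.P_zone

set_option autoImplicit false
set_option linter.unusedSectionVars false

/-!
# MP_fce888_co, sections S-d and S-e: assembly
-/

namespace Pool.Agent.Lib.MP_fce888_co.S.Geo

open Finset Pool.Agent.Lib.MP_fce888_co Pool.Agent.Lib.MP_fce888_co.S
open scoped Classical

/-- all fields of `IsStr` except the laws, for `Q ω i = eds (pth ω i)`, `e = ee`, `C ω i k = cc ..`,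
`GG = GGs G` -/
structure GeoOut {V : Type} [Fintype V] (G : SimpleGraph V) (GP : Finset (V × V))
    (QQ : V × V → Finset (List V)) (N : ℕ) : Prop where
  prob : (9 / 10 : ℝ) * Fintype.card (Om GP QQ N) ≤ (Om0 G GP QQ N).card
  good : ∀ D ∈ GGs G, GoodCirc G (LL (Fintype.card V)) (rr (Fintype.card V)) D
  symm : ∀ ω ∈ Om0 G GP QQ N, ∀ i k, cc (pth ω i) (pth ω k) = cc (pth ω k) (pth ω i)
  mem : ∀ ω ∈ Om0 G GP QQ N, ∀ i k, i ≠ k → cc (pth ω i) (pth ω k) ∈ GGs G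
  e_mem : ∀ ω ∈ Om0 G GP QQ N, ∀ i k, i ≠ k → ee ω i ∈ cc (pth ω i) (pth ω k)
  e_notMem : ∀ ω ∈ Om0 G GP QQ N, ∀ i j k, i ≠ j → i ≠ k → j ≠ k →
    ee ω i ∉ cc (pth ω j) (pth ω k)
  e_far : ∀ ω ∈ Om0 G GP QQ N, ∀ i k, i ≠ k → ∀ u ∈ ee ω i, ∀ v ∈ ee ω k,
    rr (Fintype.card V) < G.dist u v
  near_mem : ∀ ω ∈ Om0 G GP QQ N, ∀ i k, i ≠ k → ∀ g ∈ cc (pth ω i) (pth ω k),
    (∀ u ∈ g, ∀ v ∈ ee ω i, G.dist u v ≤ rr (Fintype.card V)) → g ∈ eds (pth ω i)
  sub_theta : ∀ ω ∈ Om0 G GP QQ N, ∀ i k, i ≠ k →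
    cc (pth ω i) (pth ω k) ⊆ eds (pth ω i) ∪ eds (pth ω k)
  theta_edges : ∀ ω ∈ Om0 G GP QQ N, ∀ i, ∀ g ∈ eds (pth ω i), g ∈ G.edgeSet
  theta_card : ∀ ω ∈ Om0 G GP QQ N, ∀ i j k,
    (vs (eds (pth ω i) ∪ eds (pth ω j) ∪ eds (pth ω k))).card ≤ 4 * LL (Fintype.card V)
  theta_acy : ∀ ω ∈ Om0 G GP QQ N, ∀ i j k, i ≠ j → i ≠ k → j ≠ k →
    Acy G ((eds (pth ω i) ∪ eds (pth ω j) ∪ eds (pth ω k)) \ {ee ω i, ee ω k})
  theta_nt : ∀ ω ∈ Om0 G GP QQ N, ∀ i j k, i ≠ j → i ≠ k → j ≠ k → ∀ Z, IsCirc G Z →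
    (∀ v ∈ vs Z, ∃ u ∈ vs (eds (pth ω i) ∪ eds (pth ω j) ∪ eds (pth ω k)),
      G.dist u v ≤ rr (Fintype.card V)) →
    Z ⊆ eds (pth ω i) ∪ eds (pth ω j) ∪ eds (pth ω k)

/-- the output of S-d, S-e -/
def GeoAll : Prop := ∀ (c : ℝ) (N b : ℕ), ∃ n1 : ℕ, ∀ (V : Type) [Fintype V] (G : SimpleGraph V)
  (GP : Finset (V × V)) (QQ : V × V → Finset (List V)) (m0 : ℕ), n1 ≤ Fintype.card V →
  G.Connected → (∀ v, (G.neighborSet v).ncard = 3) →
  Base c ((lam (Fintype.card V) : ℝ) ^ b) G GP QQ m0 → GeoOut G GP QQ N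

section
variable {V : Type} [Fintype V]

theorem mem_vs {D : Finset (Sym2 V)} {v : V} : v ∈ vs D ↔ ∃ e ∈ D, v ∈ e := by
  unfold vs
  simp

theorem vs_ed {L : ℕ} {x : ℕ → V} {v : V} (h : v ∈ vs (ed 0 L x)) : ∃ t, t ≤ L ∧ x t = v := by
  rw [mem_vs] at h
  obtain ⟨e, he, hv⟩ := h
  obtain ⟨t, -, ht, rfl⟩ := mem_ed.1 he
  rw [Sym2.mem_iff] at hv
  rcases hv with hv | hv
  · exact ⟨t, by omega, hv.symm⟩
  · exact ⟨t + 1, by omega, hv.symm⟩

theorem vs_ed_mem {L : ℕ} {x : ℕ → V} {t : ℕ} (hL : 1 ≤ L) (ht : t ≤ L) :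
    x t ∈ vs (ed 0 L x) := by
  rw [mem_vs]
  rcases Nat.lt_or_ge t L with h | h
  · exact ⟨s(x t, x (t + 1)), mem_ed.2 ⟨t, Nat.zero_le _, h, rfl⟩, Sym2.mem_mk_left _ _⟩
  · obtain rfl : t = L := by omega
    refine ⟨s(x (t - 1), x (t - 1 + 1)), mem_ed.2 ⟨t - 1, Nat.zero_le _, by omega, rfl⟩, ?_⟩
    have : t - 1 + 1 = t := by omega
    rw [this]
    exact Sym2.mem_mk_right _ _

theorem vs_union {A B : Finset (Sym2 V)} : vs (A ∪ B) = vs A ∪ vs B := by
  ext v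
  rw [mem_union, mem_vs, mem_vs, mem_vs]
  constructor
  · rintro ⟨e, he, hv⟩
    rcases mem_union.1 he with he | he
    · exact Or.inl ⟨e, he, hv⟩
    · exact Or.inr ⟨e, he, hv⟩
  · rintro (⟨e, he, hv⟩ | ⟨e, he, hv⟩)
    · exact ⟨e, mem_union_left _ he, hv⟩
    · exact ⟨e, mem_union_right _ he, hv⟩

theorem card_vs_ed (L : ℕ) (x : ℕ → V) : (vs (ed 0 L x)).card ≤ L + 1 := by
  have : vs (ed 0 L x) ⊆ (range (L + 1)).image x := by
    intro v hv
    obtain ⟨t, ht, rfl⟩ := vs_ed hv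
    exact mem_image_of_mem _ (mem_range.2 (by omega))
  exact (card_le_card this).trans (card_image_le.trans (by rw [card_range]))

end

section
variable {V : Type} [Fintype V] {G : SimpleGraph V} {L R R1 R2 rn r : ℕ} {ι : Type}
  {x : ι → ℕ → V}

/-- the middle edge of one path is not an edge of another one -/
theorem mid_notMem (hF : Fam G L R R1 R2 rn x) {i j : ι} (hij : i ≠ j) {h : ℕ} (h1 : R2 ≤ h)
    (h2 : h + R2 ≤ L) : s(x i h, x i (h + 1)) ∉ ed 0 L (x j) := by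
  intro hm
  obtain ⟨t, -, ht, he⟩ := mem_ed.1 hm
  have hmem : x i h ∈ s(x j t, x j (t + 1)) := he ▸ Sym2.mem_mk_left _ _
  rw [Sym2.mem_iff] at hmem
  rcases hmem with hm | hm
  · have := hF.sep i j hij h t (by omega) (by omega) h1 h2
    rw [hm, SimpleGraph.dist_self] at this
    omega
  · have := hF.sep i j hij h (t + 1) (by omega) (by omega) h1 h2
    rw [hm, SimpleGraph.dist_self] at this
    omega

end

theorem cc_eq {V : Type} [Fintype V] {L : ℕ} {x y : ℕ → V} {Q Q' : List V}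
    (hx : eds Q = ed 0 L x) (hy : eds Q' = ed 0 L y) :
    cc Q Q' = (ed 0 L x \ ed 0 L y) ∪ (ed 0 L y \ ed 0 L x) := by
  unfold cc
  rw [hx, hy]

theorem geo_of (h_good : D_good) (h_nbhd : D_nbhd) (h_tb : D_tb) (h_join : D_join) (h_acy : D_acy)
    (h_bad : D_bad) (h_num : D_num) : GeoAll := by
  intro c N b
  obtain ⟨n1, hn1⟩ := h_num N b
  refine ⟨n1, ?_⟩
  intro V _ G GP QQ m0 hn hG hcub hB
  obtain ⟨hNum, hcard, hsmall⟩ := hn1 _ hn
  have hconv := p_conv V G c _ GP QQ m0 N hB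
  have hL2 : R2 (Fintype.card V) ≤ LL (Fintype.card V) / 2 := by
    have := hNum.c; have := hNum.f; omega
  have hL3 : LL (Fintype.card V) / 2 + 1 + R2 (Fintype.card V) ≤ LL (Fintype.card V) := by
    have := hNum.c; have := hNum.f; omega
  have hrr : rr (Fintype.card V) ≤ rn (Fintype.card V) := by have := hNum.a; omega
  -- middle edges
  have hee : ∀ (ω : Om GP QQ N) (i : Fin N), ee ω i =
      s(pt ω.1.1.1 (pth ω i) (LL (Fintype.card V) / 2), pt ω.1.1.1 (pth ω i) (LL (Fintype.card V) / 2 + 1)) := fun ω i => rfl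
  have hsub : ∀ ω ∈ Om0 G GP QQ N, ∀ i k, i ≠ k →
      cc (pth ω i) (pth ω k) ⊆ eds (pth ω i) ∪ eds (pth ω k) := by
    intro ω _ i k _ g hg
    unfold cc at hg
    rw [mem_union, mem_sdiff, mem_sdiff] at hg
    rw [mem_union]
    tauto
  have he_in : ∀ ω ∈ Om0 G GP QQ N, ∀ i, ee ω i ∈ eds (pth ω i) := by
    intro ω hω i
    rw [(hconv ω hω).2 i, hee, mem_ed]
    exact ⟨LL (Fintype.card V) / 2, Nat.zero_le _, by omega, rfl⟩
  have he_out : ∀ ω ∈ Om0 G GP QQ N, ∀ i j, i ≠ j → ee ω i ∉ eds (pth ω j) := by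
    intro ω hω i j hij
    rw [(hconv ω hω).2 j, hee]
    exact mid_notMem (hconv ω hω).1 hij hL2 (by omega)
  refine ⟨?_, ?_, ?_, ?_, ?_, ?_, ?_, ?_, hsub, ?_, ?_, ?_, ?_⟩
  · -- prob
    have h1 := h_bad V G c _ GP QQ m0 N hG hcub hB (by positivity) hcard
    have h2 : (0 : ℝ) ≤ Fintype.card (Om GP QQ N) := by positivity
    have h3 := mul_le_mul_of_nonneg_right hsmall h2
    have h4 : (Fintype.card (Om GP QQ N) : ℝ) - ((Om0 G GP QQ N).card : ℝ) ≤
        1 / 10 * (Fintype.card (Om GP QQ N) : ℝ) := h1.trans h3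
    linarith
  · -- good
    intro D hD
    unfold GGs at hD
    exact (mem_filter.1 hD).2
  · -- symm
    intro ω _ i k
    unfold cc
    rw [union_comm]
  · -- mem
    intro ω hω i k hik
    unfold GGs
    rw [mem_filter]
    refine ⟨mem_univ _, ?_⟩
    obtain ⟨hF, hE⟩ := hconv ω hω
    have hgood := h_good V G (LL (Fintype.card V)) (R0 (Fintype.card V)) (R1 (Fintype.card V)) (R2 (Fintype.card V)) (rn (Fintype.card V)) (rr (Fintype.card V)) (Fin N) _ hG hNum hF i k hik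
    rw [cc_eq (hE i) (hE k)]
    refine ⟨hgood, ?_⟩
    intro v hv Z hZ
    have hup : UW G (R0 (Fintype.card V)) v := by
      have hv' : v ∈ vs (eds (pth ω i) ∪ eds (pth ω k)) := by
        rw [mem_vs] at hv ⊢
        obtain ⟨e, he, hve⟩ := hv
        refine ⟨e, hsub ω hω i k hik ?_, hve⟩
        rw [cc_eq (hE i) (hE k)]
        exact he
      rw [vs_union, mem_union, hE i, hE k] at hv'
      rcases hv' with hv' | hv'
      · obtain ⟨t, ht, rfl⟩ := vs_ed hv'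
        exact hF.up i t ht
      · obtain ⟨t, ht, rfl⟩ := vs_ed hv'
        exact hF.up k t ht
    refine h_tb V G (R0 (Fintype.card V)) (rr (Fintype.card V)) v hG ?_ hup Z hZ
    have := hNum.a; have := hNum.d; omega
  · -- e_mem
    intro ω hω i k hik
    unfold cc
    rw [mem_union, mem_sdiff]
    exact Or.inl ⟨he_in ω hω i, he_out ω hω i k hik⟩
  · -- e_notMem
    intro ω hω i j k hij hik hjk hm
    rcases mem_union.1 (hsub ω hω j k hjk hm) with h | h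
    · exact he_out ω hω i j hij h
    · exact he_out ω hω i k hik h
  · -- e_far
    intro ω hω i k hik u hu v hv
    rw [hee, Sym2.mem_iff] at hu hv
    obtain ⟨hF, hE⟩ := hconv ω hω
    rcases hu with rfl | rfl <;> rcases hv with rfl | rfl <;>
      refine lt_of_le_of_lt hrr (hF.sep i k hik _ _ ?_ ?_ ?_ ?_) <;> omega
  · -- near_mem
    intro ω hω i k hik g hg hnear
    rcases mem_union.1 (hsub ω hω i k hik hg) with h | h
    · exact h
    · exfalso
      obtain ⟨hF, hE⟩ := hconv ω hω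
      rw [hE k] at h
      obtain ⟨t, -, ht, rfl⟩ := mem_ed.1 h
      have h1 := hnear _ (Sym2.mem_mk_left _ _) (pt ω.1.1.1 (pth ω i) (LL (Fintype.card V) / 2))
        (by rw [hee]; exact Sym2.mem_mk_left _ _)
      have h2 := hF.sep i k hik (LL (Fintype.card V) / 2) t (by omega) (by omega) hL2 (by omega)
      rw [SimpleGraph.dist_comm] at h2
      have h3 : G.dist (pt ω.1.1.1 (pth ω k) t) (pt ω.1.1.1 (pth ω i) (LL (Fintype.card V) / 2)) ≤ rr (Fintype.card V) := h1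
      have h4 : rn (Fintype.card V) < G.dist (pt ω.1.1.1 (pth ω k) t) (pt ω.1.1.1 (pth ω i) (LL (Fintype.card V) / 2)) := h2
      omega
  · -- theta_edges
    intro ω hω i g hg
    obtain ⟨hF, hE⟩ := hconv ω hω
    rw [hE i] at hg
    obtain ⟨t, -, ht, rfl⟩ := mem_ed.1 hg
    exact (SimpleGraph.mem_edgeSet _).2 ((hF.pf i).adj t ht)
  · -- theta_card
    intro ω hω i j k
    obtain ⟨hF, hE⟩ := hconv ω hω
    rw [vs_union, vs_union, hE i, hE j, hE k]
    have h1 := card_vs_ed (LL (Fintype.card V)) (pt ω.1.1.1 (pth ω i))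
    have h2 := card_vs_ed (LL (Fintype.card V)) (pt ω.1.1.1 (pth ω j))
    have h3 := card_vs_ed (LL (Fintype.card V)) (pt ω.1.1.1 (pth ω k))
    have h4 := card_union_le (vs (ed 0 (LL (Fintype.card V)) (pt ω.1.1.1 (pth ω i))) ∪
      vs (ed 0 (LL (Fintype.card V)) (pt ω.1.1.1 (pth ω j)))) (vs (ed 0 (LL (Fintype.card V)) (pt ω.1.1.1 (pth ω k))))
    have h5 := card_union_le (vs (ed 0 (LL (Fintype.card V)) (pt ω.1.1.1 (pth ω i))))
      (vs (ed 0 (LL (Fintype.card V)) (pt ω.1.1.1 (pth ω j))))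
    have := hNum.f
    omega
  · -- theta_acy
    intro ω hω i j k hij hik hjk
    obtain ⟨hF, hE⟩ := hconv ω hω
    have := h_acy V G (LL (Fintype.card V)) (R0 (Fintype.card V)) (R1 (Fintype.card V)) (R2 (Fintype.card V)) (rn (Fintype.card V)) (rr (Fintype.card V)) (LL (Fintype.card V) / 2) (Fin N) _ hG hNum hF
      hL2 hL3 i j k hij hik hjk
    rw [hE i, hE j, hE k, hee, hee]
    exact this
  · -- theta_nt
    intro ω hω i j k hij hik hjk Z hZ hnear
    obtain ⟨hF, hE⟩ := hconv ω hω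
    set Θ := eds (pth ω i) ∪ eds (pth ω j) ∪ eds (pth ω k) with hΘ
    have hpt : ∀ v ∈ vs Θ, ∃ a t, (a = i ∨ a = j ∨ a = k) ∧ t ≤ LL (Fintype.card V) ∧
        pt ω.1.1.1 (pth ω a) t = v := by
      intro v hv
      rw [hΘ, vs_union, vs_union, mem_union, mem_union, hE i, hE j, hE k] at hv
      rcases hv with (hv | hv) | hv
      · obtain ⟨t, ht, h⟩ := vs_ed hv
        exact ⟨i, t, Or.inl rfl, ht, h⟩
      · obtain ⟨t, ht, h⟩ := vs_ed hv
        exact ⟨j, t, Or.inr (Or.inl rfl), ht, h⟩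
      · obtain ⟨t, ht, h⟩ := vs_ed hv
        exact ⟨k, t, Or.inr (Or.inr rfl), ht, h⟩
    have hin : ∀ a, (a = i ∨ a = j ∨ a = k) → ∀ e ∈ ed 0 (LL (Fintype.card V)) (pt ω.1.1.1 (pth ω a)), e ∈ Θ := by
      intro a ha e he
      rw [← hE a] at he
      rw [hΘ, mem_union, mem_union]
      rcases ha with rfl | rfl | rfl
      · exact Or.inl (Or.inl he)
      · exact Or.inl (Or.inr he)
      · exact Or.inr he
    have := h_nbhd V G (R0 (Fintype.card V)) (rr (Fintype.card V)) {v | v ∈ vs Θ} {e | e ∈ Θ} hG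
      (by have := hNum.a; have := hNum.d; omega)
      (fun e he v hv => mem_vs.2 ⟨e, he, hv⟩)
      (by
        intro v hv
        obtain ⟨a, t, -, ht, rfl⟩ := hpt v hv
        exact hF.up a t ht)
      (by
        intro u hu v hv hd
        obtain ⟨a, s, ha, hs, rfl⟩ := hpt u hu
        obtain ⟨b, t, hb, ht, rfl⟩ := hpt v hv
        obtain ⟨q, hq1, hq2⟩ := h_join V G (LL (Fintype.card V)) (R0 (Fintype.card V)) (R1 (Fintype.card V)) (R2 (Fintype.card V)) (rn (Fintype.card V)) (rr (Fintype.card V)) (Fin N) _ hG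
          hNum hF a b s t hs ht hd
        refine ⟨q, hq1, ?_⟩
        intro e he
        rcases hq2 e he with h | h
        · exact hin a ha e h
        · exact hin b hb e h)
      Z hZ hnear
    exact this

end Pool.Agent.Lib.MP_fce888_co.S.Geo
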