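import Pool.Agent.Lib.MP_fce888_co.S.Geo.P_up

set_option autoImplicit false
set_option linter.unusedSectionVars false

namespace Pool.Agent.Lib.MP_fce888_co.S.Geo

open Finset Pool.Agent.Lib.MP_fce888_co Pool.Agent.Lib.MP_fce888_co.S
open scoped Classical

section
variable {V : Type} [Fintype V] {G : SimpleGraph V}

theorem pt_some {v0 : V} {Q : List V} {t : ℕ} {L : ℕ} (hQ : Q.length = L + 1) (ht : t ≤ L) :
    Q[t]? = some (pt v0 Q t) := by
  unfold pt
  rw [List.getD_eq_getElem?_getD]
  have : t < Q.length := by omega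
  rw [List.getElem?_eq_getElem this]
  rfl

theorem pt_eq {v0 v : V} {Q : List V} {t : ℕ} (h : Q[t]? = some v) : pt v0 Q t = v := by
  unfold pt
  rw [List.getD_eq_getElem?_getD, h]
  rfl

theorem lt_of_some {v : V} {Q : List V} {t L : ℕ} (hQ : Q.length = L + 1) (h : Q[t]? = some v) :
    t ≤ L := by
  have := (List.getElem?_eq_some_iff.1 h).1
  omega

theorem pf_of_paths {v0 : V} {Q : List V} {L : ℕ} (hQ : Q ∈ paths G L) : PF G L (pt v0 Q) := by
  rw [mem_paths] at hQ
  obtain ⟨hlen, hne, hnd, hch⟩ := hQ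
  constructor
  · intro s t hs ht hst
    have h1 := pt_some (v0 := v0) hlen hs
    have h2 := pt_some (v0 := v0) hlen ht
    rw [hst, ← h2] at h1
    exact (List.nodup_iff_injective_get.1 hnd |> fun hinj => by
      have hs' : s < Q.length := by omega
      have ht' : t < Q.length := by omega
      rw [List.getElem?_eq_getElem hs', List.getElem?_eq_getElem ht'] at h1
      have := @hinj ⟨s, hs'⟩ ⟨t, ht'⟩ (by simpa using h1)
      simpa using this)
  · intro t ht
    have h1 := pt_some (v0 := v0) hlen (le_of_lt ht)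
    have h2 := pt_some (v0 := v0) hlen (show t + 1 ≤ L by omega)
    have ht1 : t + 1 < Q.length := by omega
    have := List.isChain_iff_getElem.1 hch t ht1
    rw [List.getElem?_eq_getElem (by omega)] at h1 h2
    simp only [Option.some.injEq] at h1 h2
    rw [← h1, ← h2]
    exact this

theorem eds_eq {v0 : V} {Q : List V} {L : ℕ} (hQ : Q.length = L + 1) :
    eds Q = ed 0 L (pt v0 Q) := by
  ext g
  unfold eds
  rw [mem_filter, mem_ed]
  constructor
  · rintro ⟨-, t, u, v, h1, h2, rfl⟩
    refine ⟨t, Nat.zero_le _, ?_, ?_⟩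
    · have := lt_of_some hQ h2
      omega
    · rw [pt_eq h1, pt_eq h2]
  · rintro ⟨t, -, ht, rfl⟩
    exact ⟨mem_univ _, t, _, _, pt_some hQ (le_of_lt ht), pt_some hQ (by omega), rfl⟩

end

theorem p_conv : D_conv := by
  intro V _ G c L4 GP QQ m0 N hB ω hω
  obtain ⟨⟨p, hp⟩, f⟩ := ω
  have hgood : ∀ i, Good G (f i).1 := fun i => hB.good p hp _ (f i).2
  have hpath : ∀ i, (f i).1 ∈ paths G (LL (Fintype.card V)) := fun i => (hgood i).path
  have hlen : ∀ i, (f i).1.length = LL (Fintype.card V) + 1 := fun i => (mem_paths.1 (hpath i)).1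
  have h0 : ∀ i, pt p.1 (f i).1 0 = p.1 := by
    intro i
    apply pt_eq
    rw [← List.head?_eq_getElem?]
    exact hB.head p hp _ (f i).2
  have h1 : ∀ i, pt p.1 (f i).1 (LL (Fintype.card V)) = p.2 := by
    intro i
    apply pt_eq
    have := hB.last p hp _ (f i).2
    rw [List.getLast?_eq_getElem?, hlen i] at this
    simpa using this
  refine ⟨⟨?_, ?_, ?_, ?_, ?_, ?_, ?_⟩, ?_⟩
  · intro i
    exact pf_of_paths (hpath i)
  · intro i t ht
    apply p_up
    apply (hgood i).up
    exact List.mem_of_getElem? (pt_some (hlen i) ht)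
  · intro i s t hst ht
    exact (hgood i).sep s t _ _ hst (pt_some (hlen i) (by omega)) (pt_some (hlen i) ht)
  · intro i j
    exact (h0 i).trans (h0 j).symm
  · intro i j
    exact (h1 i).trans (h1 j).symm
  · intro i j
    have := hB.far p hp
    show R0 (Fintype.card V) ≤ G.dist (pt p.1 (f i).1 0) (pt p.1 (f j).1 (LL (Fintype.card V)))
    rw [h0, h1]
    exact this
  · intro i j hij s t hs ht h2 h3
    unfold Om0 at hω
    rw [mem_filter] at hω
    exact hω.2 i j hij s t _ _ (pt_some (hlen i) hs) (pt_some (hlen j) ht) (Or.inl ⟨h2, h3⟩)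
  · intro i
    exact eds_eq (hlen i)

end Pool.Agent.Lib.MP_fce888_co.S.Geo
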