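import Pool.Agent.Lib.MP_fce888_co.S.Geo.Stm

set_option autoImplicit false
set_option linter.unusedSectionVars false

/-!
# MP_fce888_co, S-d/S-e: piece ini (helper42)
-/

namespace Pool.Agent.Lib.MP_fce888_co.S.Geo

open Finset Pool.Agent.Lib.MP_fce888_co Pool.Agent.Lib.MP_fce888_co.S
open scoped Classical

theorem p_ini (h_seg : D_seg) : D_ini := by
  intro V G L R R2 x y hx hy hU h0 hR hL h1
  have key : ∀ t1 t2, t1 < R2 → t2 < R2 → x t1 = y t2 → t1 = t2 ∧ ∀ k ≤ t1, x k = y k := by
    intro t1 t2 ht1 ht2 h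
    obtain ⟨p, hp, hpl, -, hpv⟩ := h_seg V G L x hx 0 t1 (Nat.zero_le _) (by omega)
    obtain ⟨q, hq, hql, -, hqv⟩ := h_seg V G L y hy 0 t2 (Nat.zero_le _) (by omega)
    have hpq := hU (x t1) p (q.copy h0.symm h.symm) hp (by simpa using hq) (by omega)
      (by rw [SimpleGraph.Walk.length_copy]; omega)
    have hlen : t1 = t2 := by
      have h2 := congrArg SimpleGraph.Walk.length hpq
      rw [SimpleGraph.Walk.length_copy] at h2
      omega
    refine ⟨hlen, ?_⟩
    intro k hk
    have h3 := congrArg (fun w => SimpleGraph.Walk.getVert w k) hpq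
    simp only [SimpleGraph.Walk.getVert_copy] at h3
    rw [hpv k (by omega), hqv k (by omega)] at h3
    simpa using h3
  refine ⟨Nat.findGreatest (fun t => x t = y t) (R2 - 1), ?_, ?_⟩
  · have := Nat.findGreatest_le (P := fun t => x t = y t) (R2 - 1)
    omega
  · intro t1 t2 ht1 ht2
    have hs0 : x (Nat.findGreatest (fun t => x t = y t) (R2 - 1)) =
        y (Nat.findGreatest (fun t => x t = y t) (R2 - 1)) :=
      Nat.findGreatest_spec (P := fun t => x t = y t) (Nat.zero_le (R2 - 1)) h0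
    have hs1 := Nat.findGreatest_le (P := fun t => x t = y t) (R2 - 1)
    constructor
    · intro h
      obtain ⟨h2, h3⟩ := key t1 t2 ht1 ht2 h
      refine ⟨h2, Nat.le_findGreatest (by omega) (h3 t1 le_rfl)⟩
    · rintro ⟨rfl, h2⟩
      exact (key _ _ (by omega) (by omega) hs0).2 t1 h2

end Pool.Agent.Lib.MP_fce888_co.S.Geo
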