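import Pool.Agent.Lib.MP_fce888_co.S.Geo.Stm

set_option autoImplicit false

namespace Pool.Agent.Lib.MP_fce888_co.S.Geo

open Finset Pool.Agent.Lib.MP_fce888_co Pool.Agent.Lib.MP_fce888_co.S
open scoped Classical

theorem p_seg : D_seg := by
  intro V G L x hx s t hst htL
  obtain ⟨d, rfl⟩ := Nat.exists_eq_add_of_le hst
  clear hst
  induction d with
  | zero =>
    refine ⟨SimpleGraph.Walk.nil, ?_, ?_, ?_, ?_⟩
    · exact SimpleGraph.Walk.IsPath.nil
    · simp
    · intro e he
      simp at he
    · intro k hk
      have : k = 0 := by omega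
      subst this
      simp
  | succ d ih =>
    obtain ⟨p, hp, hl, he, hv⟩ := ih (by omega)
    have hadj : G.Adj (x (s + d)) (x (s + d + 1)) := hx.adj (s + d) (by omega)
    have hnot : x (s + d + 1) ∉ p.support := by
      intro hmem
      rw [SimpleGraph.Walk.mem_support_iff_exists_getVert] at hmem
      obtain ⟨k, hk1, hk2⟩ := hmem
      rw [hv k (by omega)] at hk1
      have := hx.inj (s + k) (s + d + 1) (by omega) (by omega) hk1
      omega
    refine ⟨p.concat hadj, ?_, ?_, ?_, ?_⟩
    · exact (SimpleGraph.Walk.concat_isPath_iff hadj).2 ⟨hp, hnot⟩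
    · rw [SimpleGraph.Walk.length_concat, hl]; omega
    · intro e hm
      rw [SimpleGraph.Walk.edges_concat, List.concat_eq_append, List.mem_append, List.mem_singleton] at hm
      rw [mem_ed]
      rcases hm with hm | hm
      · obtain ⟨t, h1, h2, h3⟩ := mem_ed.1 (he e hm)
        exact ⟨t, h1, by omega, h3⟩
      · exact ⟨s + d, by omega, by omega, hm⟩
    · intro k hk
      rw [SimpleGraph.Walk.concat_eq_append, SimpleGraph.Walk.getVert_append]
      split_ifs with h
      · exact hv k (by omega)
      · rw [hl] at h ⊢
        have hkd : k = d ∨ k = d + 1 := by omega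
        rcases hkd with hkd | hkd
        · subst hkd
          have : k - (s + k - s) = 0 := by omega
          rw [this]
          rfl
        · subst hkd
          have : d + 1 - (s + d - s) = 1 := by omega
          rw [this]
          rfl

end Pool.Agent.Lib.MP_fce888_co.S.Geo
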