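import Pool.Agent.Lib.MP_fce888_co.S.Geo.Stm

set_option autoImplicit false

namespace Pool.Agent.Lib.MP_fce888_co.S.Geo

open Finset Pool.Agent.Lib.MP_fce888_co Pool.Agent.Lib.MP_fce888_co.S
open scoped Classical

theorem p_up : D_up := by
  intro V _ G R v h w p q hp hq hpl hql
  have key : ∀ r : G.Walk v w, r.IsPath → IsPL G r.support ∧ r.support.head? = some v ∧
      r.support.getLast? = some w ∧ r.support.length = r.length + 1 := by
    intro r hr
    refine ⟨⟨r.support_ne_nil, hr.support_nodup, r.isChain_adj_support⟩, ?_, ?_, ?_⟩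
    · cases r <;> simp
    · rw [List.getLast?_eq_getLast_of_ne_nil r.support_ne_nil, SimpleGraph.Walk.getLast_support]
    · rw [SimpleGraph.Walk.length_support]
  obtain ⟨p1, p2, p3, p4⟩ := key p hp
  obtain ⟨q1, q2, q3, q4⟩ := key q hq
  have := h p.support q.support p1 q1 p2 q2 (by omega) (by omega) (by rw [p3, q3])
  exact SimpleGraph.Walk.ext_support this

end Pool.Agent.Lib.MP_fce888_co.S.Geo
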