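import Pool.Agent.Lib.MP_fce888_co.S.Geo.Defs

set_option autoImplicit false

/-!
# MP_fce888_co, sections S-d and S-e: sub-statements (owner helper3)

Every piece `[Sd xxx]` is a theorem `p_xxx : D_xxx` in its own file
`Pool/Agent/Lib/MP_fce888_co/S/Geo/P_xxx.lean`, namespace `Pool.Agent.Lib.MP_fce888_co.S.Geo`
(if the docstring says `from `D_yyy``, import `Geo/P_yyy.lean` if it is on main, otherwise prove
`p_xxx (h : D_yyy) : D_xxx`).
-/

namespace Pool.Agent.Lib.MP_fce888_co.S.Geo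

open Finset Pool.Agent.Lib.MP_fce888_co Pool.Agent.Lib.MP_fce888_co.S
open scoped Classical

/-- [Sd up] walk version of `UP` (helper3 does it). `p.support` is an `IsPL` list. -/
def D_up : Prop := ∀ (V : Type) [Fintype V] (G : SimpleGraph V) (R : ℕ) (v : V),
  UP G R v → UW G R v

/-- [Sd seg] the walk along a path (helper3 does it). Induction on `t - s`. -/
def D_seg : Prop := ∀ (V : Type) (G : SimpleGraph V) (L : ℕ) (x : ℕ → V), PF G L x →
  ∀ s t, s ≤ t → t ≤ L → ∃ p : G.Walk (x s) (x t), p.IsPath ∧ p.length = t - s ∧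
    (∀ e ∈ p.edges, e ∈ ed s t x) ∧ ∀ k ≤ t - s, p.getVert k = x (s + k)

/-- [Sd ini] (from `D_seg`) two paths `x`, `y` with the same start: the common initial piece.
Proof: if `x t1 = y t2` with `t1, t2 < R2` then the walks of `D_seg` from `x 0 = y 0` to `x t1 = y t2`
(use `Walk.copy`) are paths of length `≤ R`, equal by `UW`, so `t1 = t2` (lengths) and `x k = y k` for all
`k ≤ t1` (`getVert`).  Let `s0 := Nat.findGreatest (fun t => x t = y t) (R2 - 1)`; `x s0 = y s0` since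
`x 0 = y 0` (`Nat.findGreatest_spec`), so `x k = y k` for `k ≤ s0`; and `x t = y t`, `t < R2` implies
`t ≤ s0` (`Nat.le_findGreatest`). -/
def D_ini : Prop := ∀ (V : Type) (G : SimpleGraph V) (L R R2 : ℕ) (x y : ℕ → V), PF G L x →
  PF G L y → UW G R (x 0) → x 0 = y 0 → R2 ≤ R → R2 ≤ L → 1 ≤ R2 →
  ∃ s0, s0 < R2 ∧ ∀ t1 t2, t1 < R2 → t2 < R2 → (x t1 = y t2 ↔ t1 = t2 ∧ t1 ≤ s0)

/-- [Sd zone] (from `D_seg`) near points of two different paths of a family are both initial or both final.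
Proof: by `sep` (for `(i,j)`, and for `(j,i)` with `G.dist_comm`) `s` is not in `[R2, L-R2]` and `t` is not in
`[R2, L-R2]`.  If `s < R2` and `t > L - R2`: `dist (x i 0) (x j L) ≤ dist (x i 0) (x i s) + dist (x i s) (x j t)
+ dist (x j t) (x j L) ≤ s + rn + (L - t) < 2 * R2 + rn < R` (`D_seg` gives walks, `SimpleGraph.dist_le`;
`Connected.dist_triangle`), contradiction to `far`; the case `t < R2`, `s > L - R2` is symmetric. -/
def D_zone : Prop := ∀ (V : Type) (G : SimpleGraph V) (L R R1 R2 rn r : ℕ) (ι : Type)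
  (x : ι → ℕ → V), G.Connected → Num L R R1 R2 rn r → Fam G L R R1 R2 rn x → ∀ i j, i ≠ j →
  ∀ s t, s ≤ L → t ≤ L → G.dist (x i s) (x j t) ≤ rn →
    (s < R2 ∧ t < R2) ∨ (L < s + R2 ∧ L < t + R2)

/-- [Sd pair] (from `D_ini`, `D_zone`) the intersection of two paths of a family: common initial piece
`[0, s0]`, common final piece `[L - s1, L]`.
Proof: `s0` from `D_ini` for `x i`, `x j`; `s1` from `D_ini` for the reversed paths
`t ↦ x i (L - t)`, `t ↦ x j (L - t)` (they are `PF G L`; their start is `x i L = x j L`).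
`→`: `x i t1 = x j t2` implies `dist = 0 ≤ rn`, so by `D_zone` both `< R2` (use `D_ini`) or both `> L - R2`
(use the reversed `D_ini` with `L - t1`, `L - t2`).  `←`: `t1 = t2 ≤ s0 < R2` (or `L - t1 ≤ s1 < R2`). -/
def D_pair : Prop := ∀ (V : Type) (G : SimpleGraph V) (L R R1 R2 rn r : ℕ) (ι : Type)
  (x : ι → ℕ → V), G.Connected → Num L R R1 R2 rn r → Fam G L R R1 R2 rn x → ∀ i j, i ≠ j →
  ∃ s0 s1, s0 < R2 ∧ s1 < R2 ∧ ∀ t1 t2, t1 ≤ L → t2 ≤ L →
    (x i t1 = x j t2 ↔ t1 = t2 ∧ (t1 ≤ s0 ∨ L ≤ t1 + s1))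

/-- [Sd cyc] a closed sequence without repetition is a circuit.
Proof: with `γ := per m c`: for `z : ℤ`, `z % m = k` with `0 ≤ k < m`, `γ z = c k`.
`γ i = γ j ↔ i % m = j % m ↔ m ∣ i - j` (`Int.emod_emod_of_dvd`, `Int.emod_emod_eq..`, `Int.ModEq`).
Adjacency: `(i + 1) % m = k + 1` or (`k + 1 = m` and `(i+1) % m = 0`, use `c m = c 0`).
Edge set: for `k < m`, `γ k = c k` and `γ (k+1) = c (k+1)` (again `c m = c 0` for `k + 1 = m`). -/
def D_cyc : Prop := ∀ (V : Type) [Fintype V] (G : SimpleGraph V) (m : ℕ) (c : ℕ → V), 3 ≤ m →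
  (∀ i j, i < m → j < m → c i = c j → i = j) → (∀ k, k < m → G.Adj (c k) (c (k + 1))) → c m = c 0 →
  IsCyc G (ed 0 m c) m (per m c)

/-- [Sd cir] (from `D_cyc`) the symmetric difference of two paths with common initial piece `[0,s0]` and common
final piece `[L-s1, L]` is a circuit.
Proof: put `l := L - s0 - s1 ≥ 2`, `m := 2 * l`, `c := cir L s0 s1 x y`.  For `k ≤ l`: `c k = x (s0 + k)`; for
`l ≤ k ≤ 2l`: `c k = y (s0 + 2l - k)` (for `k = l` use `x (L - s1) = y (L - s1)`); `c (2l) = y s0 = x s0 = c 0`.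
Injective on `[0, 2l)`: both indices `≤ l`: `PF.inj`; both `> l`: `PF.inj`; `i ≤ l < j < 2l`:
`x (s0 + i) = y (s0 + 2l - j)` gives `s0 + i = s0 + 2l - j ≤ s0` or `L ≤ s0 + i + s1`, i.e. `i ≥ l`, so
`j = 2l - i` is `≥ 2l` resp. `≤ l`, contradiction.  Adjacent: `PF.adj`.
Edges: `ed 0 m c = {edges t of x : s0 ≤ t < L - s1} ∪ {edges t of y : s0 ≤ t < L - s1}`, and
`s(x t, x (t+1)) ∈ ed 0 L y ↔ t < s0 ∨ L - s1 ≤ t` (for `t < L`): if it is `s(y t', y (t'+1))` then either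
`x t = y t'`, `x (t+1) = y (t'+1)` (so `t' = t` and both `t` and `t+1` are in `[0,s0] ∪ [L-s1, L]`; as
`s0 + 2 ≤ L - s1` both are in the same part), or `x t = y (t'+1)`, `x (t+1) = y t'`, so `t = t'+1`, `t+1 = t'`,
absurd.  By symmetry (the hypothesis is symmetric in `x`, `y`) the same for `y`. -/
def D_cir : Prop := ∀ (V : Type) [Fintype V] (G : SimpleGraph V) (L s0 s1 : ℕ) (x y : ℕ → V),
  PF G L x → PF G L y → s0 + s1 + 2 ≤ L →
  (∀ t1 t2, t1 ≤ L → t2 ≤ L → (x t1 = y t2 ↔ t1 = t2 ∧ (t1 ≤ s0 ∨ L ≤ t1 + s1))) →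
  IsCyc G ((ed 0 L x \ ed 0 L y) ∪ (ed 0 L y \ ed 0 L x)) (2 * (L - s0 - s1))
    (per (2 * (L - s0 - s1)) (cir L s0 s1 x y))

/-- [Sd near] (from `D_zone`) near points on the closed sequence `cir` are close in cyclic distance.
Proof: put `l := L - s0 - s1`, `m := 2 * l`.  Points with index `p ≤ l` are `x i (s0 + p)`, those with `p > l` are
`x j (s0 + 2l - p)`.
* both `p, q ≤ l`: by `self` (contrapositive, and `G.dist_comm`) `|p - q| ≤ R1`; `k := |p - q|`.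
* both `> l`: the same.
* `p ≤ l < q`: `s := s0 + p`, `t := s0 + 2l - q`; by `D_zone` both `< R2`: `k := p + (m - q)`
  (`= (s - s0) + (t - s0) < 2 * R2`), `p - q - k = -m`; or both `> L - R2`:
  `k := q - p = (L - s - s1) + (L - t - s1) < 2 * R2`.
* `q ≤ l < p`: symmetric (`G.dist_comm`).
Everything is `omega` after the case distinction (`2 * R1 ≤ R`, `4 * R2 ≤ R`; divisibility: the number is
`0` or `± m`). -/
def D_near : Prop := ∀ (V : Type) (G : SimpleGraph V) (L R R1 R2 rn r s0 s1 : ℕ) (ι : Type)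
  (x : ι → ℕ → V), G.Connected → Num L R R1 R2 rn r → Fam G L R R1 R2 rn x → ∀ i j, i ≠ j →
  s0 < R2 → s1 < R2 → ∀ p q, p < 2 * (L - s0 - s1) → q < 2 * (L - s0 - s1) →
  G.dist (cir L s0 s1 (x i) (x j) p) (cir L s0 s1 (x i) (x j) q) ≤ rn →
  ∃ k : ℕ, 2 * k ≤ R ∧ (((2 * (L - s0 - s1) : ℕ) : ℤ) ∣ (q : ℤ) - p - k ∨
    ((2 * (L - s0 - s1) : ℕ) : ℤ) ∣ (p : ℤ) - q - k)

/-- [Sd arc] (from `D_seg`) short arcs of a circuit are geodesics.
Proof: `t ↦ γ (i + t)` is `PF G (m-1)` (injective since `m ∣ t - t'` and `|t - t'| < m` imply `t = t'`), so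
`D_seg` gives a path of length `k` from `γ i` to `γ (i + k)`; a geodesic
(`G.Connected.exists_walk_length_eq_dist`, `Walk.isPath_of_length_eq_dist`) has length `≤ k ≤ R`; by `UW` they
are equal, so `dist = k`.  The same for `t ↦ γ (i - t)`. -/
def D_arc : Prop := ∀ (V : Type) [Fintype V] (G : SimpleGraph V) (R : ℕ) (D : Finset (Sym2 V)) (m : ℕ)
  (γ : ℤ → V), G.Connected → IsCyc G D m γ → ∀ (i : ℤ) (k : ℕ), UW G R (γ i) → k ≤ R → k < m →
  G.dist (γ i) (γ (i + k)) = k ∧ G.dist (γ i) (γ (i - k)) = k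

/-- [Sd good] (from `D_pair`, `D_cir`, `D_near`, `D_arc`) `C_ij` satisfies the first half of `GoodCirc`.
Proof: `s0, s1` from `D_pair`; `m := 2 * (L - s0 - s1)`, `γ := per m (cir ...)`; `IsCyc` by `D_cir`; `L ≤ m ≤ 2L`
(`4 * R2 ≤ R`, `2 * R + 4 ≤ L`).  NE: let `a b : ℤ` with `dist (γ a) (γ b) ≤ r ≤ rn`; `γ a = cir .. p`,
`p = (a % m).toNat`, `γ b = cir .. q`; by `D_near` there is `k ≤ R/2` with `m ∣ b - a - k` or `m ∣ a - b - k`
(`a ≡ p`, `b ≡ q` mod `m`).  So `γ b = γ (a + k)` or `γ b = γ (a - k)` (second field of `IsCyc`), and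
`dist (γ a) (γ b) = k` by `D_arc` (`k ≤ R/2 < m`; `UW G R (γ a)` by `Fam.up`: `γ a` is a point of `x i` or `x j` with
index `≤ L`). -/
def D_good : Prop := ∀ (V : Type) [Fintype V] (G : SimpleGraph V) (L R R1 R2 rn r : ℕ) (ι : Type)
  (x : ι → ℕ → V), G.Connected → Num L R R1 R2 rn r → Fam G L R R1 R2 rn x → ∀ i j, i ≠ j →
  ∃ (m : ℕ) (γ : ℤ → V),
    IsCyc G ((ed 0 L (x i) \ ed 0 L (x j)) ∪ (ed 0 L (x j) \ ed 0 L (x i))) m γ ∧ L ≤ m ∧ m ≤ 2 * L ∧
    ∀ a b : ℤ, G.dist (γ a) (γ b) ≤ r →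
      (m : ℤ) ∣ (b - a) - (G.dist (γ a) (γ b) : ℤ) ∨ (m : ℤ) ∣ (a - b) - (G.dist (γ a) (γ b) : ℤ)

/-- [Sd key] the key step of the neighbourhood lemma.  `S` a set of vertices, `ES` a set of edges, `a b` adjacent,
`s(a,b) ∉ ES`; `pa` a path of length `≤ r` from `θa ∈ S` to `a`, `pb` a path of length `≤ r` from `θb ∈ S` to `b`, `q` a
walk from `θa` to `θb` with edges in `ES`.  Then `b` is on `pa` or `a` is on `pb`.
Proof: suppose `b ∉ pa.support`.  `w1 := pa.concat h` is a path from `θa` to `b` of length `≤ r + 1 ≤ R`;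
`w2 := (q.append pb).bypass` is a path of length `≤ R/2 + r ≤ R` with edges among those of `q` and `pb`
(`Walk.bypass_isPath`, `Walk.length_bypass_le`, `Walk.edges_bypass_subset`).  By `UW G R θa`, `w1 = w2`, so
`s(a,b) ∈ w1.edges = w2.edges`; not in `q.edges` (they are in `ES`), so `s(a,b) ∈ pb.edges` and `a ∈ pb.support`
(`Walk.fst_mem_support_of_mem_edges`). -/
def D_key : Prop := ∀ (V : Type) (G : SimpleGraph V) (R r : ℕ) (ES : Set (Sym2 V)) (a b θa θb : V)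
  (pa : G.Walk θa a) (pb : G.Walk θb b) (q : G.Walk θa θb), 2 * r + 1 ≤ R → 2 * q.length ≤ R →
  (∀ e ∈ q.edges, e ∈ ES) → UW G R θa → pa.IsPath → pa.length ≤ r → pb.length ≤ r → G.Adj a b →
  s(a, b) ∉ ES → b ∈ pa.support ∨ a ∈ pb.support

/-- [Sd nbhd] (from `D_key`) NEIGHBOURHOOD LEMMA (S-e): circuits near `S` are inside `ES`.
Proof: for every vertex `a` of `Z` let `h a := min_{s ∈ S} dist a s ≤ r`, attained at `θ a ∈ S`, and `p a` a geodesic
from `θ a` to `a` (length `h a`, a path).  (Choose them with `Classical.choose`, for all `a` in `vs Z`.)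
(1) If `v ∈ (p a).support` then `h v ≤ dist (θ a) v` and if moreover `v` is adjacent to `a` then
`v = (p a).getVert (h a - 1)` and `h v < h a`: `v = (p a).getVert i`, `i ≤ h a`; `dist (θ a) v ≤ i`
(`Walk.take`); `h a = dist (θ a) a ≤ i + 1`, `i ≠ h a` since `v ≠ a`; so `i = h a - 1`.
(2) Let `a b` be consecutive in `Z`, `s(a,b) ∉ ES`.  `dist (θ a) (θ b) ≤ h a + 1 + h b ≤ 2r+1`, so the hypothesis
`near` gives `q`, and `D_key` gives `b ∈ (p a).support` or `a ∈ (p b).support`; so by (1): (`h b < h a` and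
`b = (p a).getVert (h a - 1)`) or `h a < h b`.
(3) Let `a = γ i` be a vertex of `Z` with `h a` maximal (`vs Z` finite, nonempty; `C48.p_cyc` (4)).  If `h a ≥ 1`, then
`a ∉ S`, so both edges of `Z` at `a` are not in `ES` (`ends`), so by (2) and maximality both neighbours `γ (i-1)`,
`γ (i+1)` are `(p a).getVert (h a - 1)`, but they are different (`m ≥ 3`), contradiction.  So `h = 0` on `vs Z`; if some
edge `s(a,b)` of `Z` is not in `ES`, (2) gives `h b < h a` or `h a < h b`, contradiction. -/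
def D_nbhd : Prop := ∀ (V : Type) [Fintype V] (G : SimpleGraph V) (R r : ℕ) (S : Set V)
  (ES : Set (Sym2 V)), G.Connected → 2 * r + 1 ≤ R → (∀ e ∈ ES, ∀ v ∈ e, v ∈ S) →
  (∀ v ∈ S, UW G R v) →
  (∀ u ∈ S, ∀ v ∈ S, G.dist u v ≤ 2 * r + 1 →
    ∃ q : G.Walk u v, 2 * q.length ≤ R ∧ ∀ e ∈ q.edges, e ∈ ES) →
  ∀ Z, IsCirc G Z → (∀ v ∈ vs Z, ∃ u ∈ S, G.dist u v ≤ r) → ∀ e ∈ Z, e ∈ ES

/-- [Sd tb] (from `D_nbhd`) TB: no circuit in a ball around a vertex with `UW`.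
Proof: `D_nbhd` with `S = {v}`, `ES = ∅` (`q := Walk.nil`), and `Z` is not empty (`C48.p_cyc` (1)). -/
def D_tb : Prop := ∀ (V : Type) [Fintype V] (G : SimpleGraph V) (R r : ℕ) (v : V), G.Connected →
  2 * r + 1 ≤ R → UW G R v → ∀ Z, IsCirc G Z → ¬ ∀ u ∈ vs Z, G.dist v u ≤ r

/-- [Sd join] (from `D_seg`, `D_zone`) near points of the union of a family are joined inside the union.
Proof: `u = x i s`, `v = x j t`, `dist ≤ 2r+1 ≤ rn`.  `i = j`: by `self` (and `dist_comm`) `|s - t| ≤ R1`, take the walk of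
`D_seg` (or its reverse).  `i ≠ j`: `D_zone`; both `< R2`: walk back from `x i s` to `x i 0 = x j 0` and forth to
`x j t` (`Walk.reverse`, `Walk.append`, `Walk.copy`), length `s + t < 2 * R2`; both `> L - R2`: through the end,
length `(L - s) + (L - t) < 2 * R2`.  All edges are in `ed 0 L (x i) ∪ ed 0 L (x j)`. -/
def D_join : Prop := ∀ (V : Type) (G : SimpleGraph V) (L R R1 R2 rn r : ℕ) (ι : Type)
  (x : ι → ℕ → V), G.Connected → Num L R R1 R2 rn r → Fam G L R R1 R2 rn x →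
  ∀ i j s t, s ≤ L → t ≤ L → G.dist (x i s) (x j t) ≤ 2 * r + 1 →
  ∃ q : G.Walk (x i s) (x j t), 2 * q.length ≤ R ∧ ∀ e ∈ q.edges, e ∈ ed 0 L (x i) ∨ e ∈ ed 0 L (x j)

/-- [Sd attp] attach a path: `U` acyclic, the edges of `y` before `s` are in `U`, the vertices after `s` are new.
Proof: let `Z ⊆ U ∪ ed 0 T y` be a circuit.  If `Z` contains no edge `y t, y (t+1)` with `s ≤ t < T` then
`Z ⊆ U`, contradiction.  Otherwise take such a `t` maximal; `v := y (t+1)`, `v ∉ vs U`.  By `C48.S_deg` (every vertex of a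
circuit lies on two different edges of it; file `C48/P_deg.lean` or from `p_cyc`) there is an edge `e' ≠ s(y t, y (t+1))`
in `Z` with `v ∈ e'`; `e' ∉ U`, so `e' = s(y t', y (t'+1))`, `t' < T`; `v = y t'` gives `t' = t+1` by injectivity,
contradiction to the maximality (`t' ≥ s`); `v = y (t'+1)` gives `t' = t`, contradiction to `e' ≠`. -/
def D_attp : Prop := ∀ (V : Type) [Fintype V] (G : SimpleGraph V) (U : Finset (Sym2 V)) (y : ℕ → V)
  (s T : ℕ), Acy G U → PF G T y → (∀ t, t < s → t < T → s(y t, y (t + 1)) ∈ U) →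
  (∀ t, s < t → t ≤ T → y t ∉ vs U) → Acy G (U ∪ ed 0 T y)

/-- [Sd acy] (from `D_pair`, `D_attp`) `Θ` without the two middle edges is acyclic (`h` the middle position).
Proof: `D_attp` five times, then monotonicity (`Acy G U`, `W ⊆ U` imply `Acy G W`):
`U1 := ed 0 L (x j)` (attach `x j` to `∅`, `s = 0`; `Acy G ∅` since a circuit is not empty);
`U2 := U1 ∪ ed 0 h (x i)` with `s := s0(i,j)` of `D_pair`;
`U3 := U2 ∪ ed 0 (L-h-1) (fun t => x i (L - t))` with `s := s1(i,j)`;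
`U4 := U3 ∪ ed 0 h (x k)` with `s := max (s0(k,j)) (s0(k,i))` (`t < s0(k,j)`: the edge is an edge of `x j`;
`t < s0(k,i)`: it is an edge of the first half of `x i`, as `s0(k,i) < R2 ≤ h`);
`U5 := U4 ∪ ed 0 (L-h-1) (fun t => x k (L - t))` with `s := max (s1(k,j)) (s1(k,i))`.
New vertices: `x i t`, `s0 < t ≤ h < L - s1`, is not on `x j`; `x i (L - t)`, `s1 < t ≤ L-h-1`, is not on `x j` and not
among `x i 0 .. x i h`; etc.  (Vertices of `ed a b x` are `x a .. x b`.)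
Every edge of `x i` except `s(x i h, x i (h+1))` is in `ed 0 h (x i)` or in `ed 0 (L-h-1) (fun t => x i (L-t))`
(edge number `t > h` is edge number `L-1-t` of the reversed function, ends exchanged: `Sym2.eq_swap`). -/
def D_acy : Prop := ∀ (V : Type) [Fintype V] (G : SimpleGraph V) (L R R1 R2 rn r h : ℕ) (ι : Type)
  (x : ι → ℕ → V), G.Connected → Num L R R1 R2 rn r → Fam G L R R1 R2 rn x → R2 ≤ h → h + 1 + R2 ≤ L →
  ∀ i j k, i ≠ j → i ≠ k → j ≠ k →
    Acy G ((ed 0 L (x i) ∪ ed 0 L (x j) ∪ ed 0 L (x k)) \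
      {s(x i h, x i (h + 1)), s(x k h, x k (h + 1))})

/-- [Sd cou] counting functions: if every `a` has few bad partners then few functions have a bad pair at `(i, j)`.
Proof: the involution `(f, a) ↦ (Function.update f j a, f j)` on `(Fin N → α) × α` shows
`m0 * #{f | A (f i) (f j)} = ∑_f #{a | A (f i) a} ≤ m0^N * (ε * m0)` (`m0 = card α`), divide by `m0 > 0`
(if `m0 = 0` there is no `f`, as `N > 0`). -/
def D_cou : Prop := ∀ (α : Type) [Fintype α] (N : ℕ) (A : α → α → Prop) (ε : ℝ), 0 ≤ ε →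
  (∀ a, (((univ : Finset α).filter fun b => A a b).card : ℝ) ≤ ε * Fintype.card α) →
  ∀ i j : Fin N, i ≠ j → (((univ : Finset (Fin N → α)).filter fun f => A (f i) (f j)).card : ℝ) ≤
    ε * (Fintype.card α : ℝ) ^ N

/-- [Sd flat] for a fixed path `Q`, few `Q' ∈ QQ p` come near `Q` with a position `t2` in the middle.
`n = card V`, `L = LL n`.
Proof: union over `t1 ≤ L` (`Q` has at most `L+1` positions: `Q ∈ paths`), `t2 ∈ [R2, L-R2]` and the vertices `v` with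
`dist (Q t1) v ≤ rn` (at most `2^(rn+2)`, `S.ball_card` of `S/AbcPath.lean` with `R := rn + 1`): by `Base.flat`
`#{Q' | Q'[t2]? = some v} ≤ L4 * m0 * bet n t2` and `bet n t2 ≤ 3 * (1/2)^R2`: `(1/2)^t2 ≤ (1/2)^R2`,
`(1/2)^(L-t2) ≤ (1/2)^R2`, `1/n ≤ (1/2)^lam ≤ (1/2)^R2` (`2^lam ≤ n`: `Nat.pow_log_le_self`; `R2 ≤ lam`). -/
def D_flat : Prop := ∀ (V : Type) [Fintype V] (G : SimpleGraph V) (c L4 : ℝ) (GP : Finset (V × V))
  (QQ : V × V → Finset (List V)) (m0 : ℕ), G.Connected → (∀ v, (G.neighborSet v).ncard = 3) →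
  Base c L4 G GP QQ m0 → 0 ≤ L4 → 1 ≤ Fintype.card V → ∀ p ∈ GP, ∀ Q ∈ QQ p,
  (((QQ p).filter fun Q' => ∃ (t1 t2 : ℕ) (u v : V), Q[t1]? = some u ∧ Q'[t2]? = some v ∧
      R2 (Fintype.card V) ≤ t2 ∧ t2 + R2 (Fintype.card V) ≤ LL (Fintype.card V) ∧
      G.dist u v ≤ rn (Fintype.card V)).card : ℝ) ≤
    ((LL (Fintype.card V) + 1 : ℕ) : ℝ) ^ 2 * 2 ^ (rn (Fintype.card V) + 2) *
      (L4 * 3 * (1 / 2) ^ R2 (Fintype.card V)) * m0

/-- [Sd bad] (from `D_cou`, `D_flat`) the complement of `Ω₀` is small.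
Proof: let `A p Q Q'` be the event of `D_flat` (`t2` in the middle) and `ε :=` its factor.
`¬ Sep G Q Q'` implies `A Q Q'` or `A Q' Q` (`dist_comm`), so `ω ∉ Ω₀` implies `A (pth ω i) (pth ω j)` for some `i ≠ j`.
`#{ω | A (pth ω i) (pth ω j)} = ∑_{p ∈ GP} #{f : Fin N → QQ p | A (f i) (f j)} ≤ |GP| ε m0^N = ε * card Om`
(`D_cou` with `α := {Q // Q ∈ QQ p}`, `card α = m0`; `Fintype.card_sigma`), and there are `≤ N^2` pairs. -/
def D_bad : Prop := ∀ (V : Type) [Fintype V] (G : SimpleGraph V) (c L4 : ℝ) (GP : Finset (V × V))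
  (QQ : V × V → Finset (List V)) (m0 N : ℕ), G.Connected → (∀ v, (G.neighborSet v).ncard = 3) →
  Base c L4 G GP QQ m0 → 0 ≤ L4 → 1 ≤ Fintype.card V →
  (Fintype.card (Om GP QQ N) : ℝ) - ((Om0 G GP QQ N).card : ℝ) ≤
    (N : ℝ) ^ 2 * (((LL (Fintype.card V) + 1 : ℕ) : ℝ) ^ 2 * 2 ^ (rn (Fintype.card V) + 2) *
      (L4 * 3 * (1 / 2) ^ R2 (Fintype.card V))) * Fintype.card (Om GP QQ N)

/-- [Sd num] numerics: for `L4 = lam^b` the bound of `D_bad` is `≤ 1/10` for large `n`, and `Num` holds.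
Proof: `2^(rn+2) * (1/2)^R2 = 4 * (1/2)^rn` (`R2 = 2 rn`), `rn = lam/100`, `LL n + 1 = 3 lam + 4`; so the quantity is
`N^2 * 12 * (3 lam + 4)^2 * lam^b * (1/2)^(lam/100)`, which tends to 0 as `lam → ∞`
(put `k = lam/100`, `lam < 100 (k+1)`, `tendsto_pow_const_mul_const_pow_of_abs_lt_one`), and `lam n → ∞`
(`Nat.log`: `lam n ≥ K` for `n ≥ 2^K`, `Nat.pow_le_iff_le_log` / `Nat.log_mono_right`).
`Num`: omega after `lam ≥ 1000` (unfold `LL, R0, R1, R2, rn, rr`). -/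
def D_num : Prop := ∀ (N b : ℕ), ∃ n1 : ℕ, ∀ n, n1 ≤ n →
  Num (LL n) (R0 n) (R1 n) (R2 n) (rn n) (rr n) ∧ 1 ≤ n ∧
  (N : ℝ) ^ 2 * (((LL n + 1 : ℕ) : ℝ) ^ 2 * 2 ^ (rn n + 2) * ((lam n : ℝ) ^ b * 3 * (1 / 2) ^ R2 n)) ≤
    1 / 10

/-- [Sd conv] (helper3) from lists to functions: for `ω ∈ Ω₀` the functions `pt p.1 (pth ω i)` form a family. -/
def D_conv : Prop := ∀ (V : Type) [Fintype V] (G : SimpleGraph V) (c L4 : ℝ) (GP : Finset (V × V))
  (QQ : V × V → Finset (List V)) (m0 N : ℕ), Base c L4 G GP QQ m0 → ∀ ω ∈ Om0 G GP QQ N,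
  Fam G (LL (Fintype.card V)) (R0 (Fintype.card V)) (R1 (Fintype.card V)) (R2 (Fintype.card V))
    (rn (Fintype.card V)) (fun i => pt ω.1.1.1 (pth ω i)) ∧
  ∀ i, eds (pth ω i) = ed 0 (LL (Fintype.card V)) (pt ω.1.1.1 (pth ω i))

end Pool.Agent.Lib.MP_fce888_co.S.Geo
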